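import Pool.Agent.Lib.MP_0d2ecd_gt.Iff

set_option autoImplicit false

open Set Cardinal TopologicalSpace

universe u

namespace Pool.Agent.Lib.MP_0d2ecd_gt

/-- a tree base -/
structure TB {X : Type u} [TopologicalSpace X] (T : Set (Set X)) : Prop where
  basis : IsTopologicalBasis T
  zero : ∅ ∉ T
  tree : ∀ U ∈ T, ∀ V ∈ T, U ⊆ V ∨ V ⊆ U ∨ Disjoint U V
  wf : ∀ U ∈ T, ∀ S ⊆ T, S.Nonempty → (∀ W ∈ S, U ⊆ W) → ∃ W ∈ S, ∀ W' ∈ S, W' ⊆ W

/-- a discrete copy of a type -/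
def DCopy (α : Type u) : Type u := α

instance (α : Type u) : TopologicalSpace (DCopy α) := ⊥

instance (α : Type u) : DiscreteTopology (DCopy α) := ⟨rfl⟩

section
variable {X : Type u} [TopologicalSpace X]

theorem TB.nonempty {T : Set (Set X)} (h : TB T) {t : Set X} (ht : t ∈ T) : t.Nonempty := by
  rw [nonempty_iff_ne_empty]
  rintro rfl
  exact h.zero ht

theorem TB.open {T : Set (Set X)} (h : TB T) {t : Set X} (ht : t ∈ T) : IsOpen t :=
  h.basis.isOpen ht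

theorem TB.closed [T1Space X] {T : Set (Set X)} (h : TB T) {t : Set X} (ht : t ∈ T) :
    IsClosed t := by
  refine closed_of_mem' T h.basis h.zero ?_ ht
  intro U hU V hV p hpU hpV
  rcases h.tree U hU V hV with h1 | h1 | h1
  · exact Or.inl h1
  · exact Or.inr h1
  · exact absurd hpV (disjoint_left.1 h1 hpU)

/-- points of a closed nowhere dense set: a sequence of disjoint families of nodes which
contains a base at each of them -/
theorem TB.jumps [T6Space X] {T : Set (Set X)} (h : TB T) (K : Set X) (hK : IsClosed K)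
    (hKn : interior K = ∅) : ∃ L : ℕ → Set (Set X), (∀ n, L n ⊆ T) ∧
      (∀ n, ∀ s ∈ L n, ∀ t ∈ L n, ∀ x, x ∈ s → x ∈ t → s = t) ∧
      (∀ n, ∀ x ∈ K, ∃ t ∈ L n, x ∈ t) ∧
      ∀ x ∈ K, ∀ O, IsOpen O → x ∈ O → ∃ n, ∃ t ∈ L n, x ∈ t ∧ t ⊆ O := by
  obtain ⟨F, hF, hKF⟩ := open_fsig hK.isOpen_compl
  let Q : ℕ → Set X → Prop := fun n v => ∀ j < n, Disjoint v (F j)
  have hex : ∀ n, ∀ x ∈ K, ∃ t ∈ FM T (Q n), x ∈ t := by
    intro n x hx
    have h1 : IsOpen (⋂ j ∈ Set.Iio n, (F j)ᶜ) :=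
      (Set.finite_Iio n).isOpen_biInter fun j _ => (hF j).isOpen_compl
    have h2 : x ∈ ⋂ j ∈ Set.Iio n, (F j)ᶜ := by
      simp only [mem_iInter]
      intro j _ hxj
      have : x ∈ Kᶜ := by rw [hKF]; exact mem_iUnion.2 ⟨j, hxj⟩
      exact this hx
    obtain ⟨t, htT, hxt, ht⟩ := h.basis.exists_subset_of_mem_open h2 h1
    obtain ⟨s, hs, hts⟩ := exists_FM (Q := Q n) h.wf htT (by
      intro j hj
      rw [disjoint_left]
      intro z hz hz'
      have := ht hz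
      simp only [mem_iInter] at this
      exact this j hj hz')
    exact ⟨s, hs, hts hxt⟩
  refine ⟨fun n => FM T (Q n), fun n t ht => ht.1, fun n s hs t ht x hxs hxt =>
    FM_unique h.tree hs ht hxs hxt, hex, ?_⟩
  intro x hx O hO hxO
  obtain ⟨t, htT, hxt, htO⟩ := h.basis.exists_subset_of_mem_open hxO hO
  have h3 : ∃ y ∈ t, y ∉ K := by
    by_contra hcon
    push Not at hcon
    have h4 : t ⊆ interior K := interior_maximal hcon (h.open htT)
    rw [hKn] at h4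
    exact h4 hxt
  obtain ⟨y, hyt, hyK⟩ := h3
  have h5 : y ∈ ⋃ n, F n := by rw [← hKF]; exact hyK
  obtain ⟨m, hm⟩ := mem_iUnion.1 h5
  obtain ⟨v, hv, hxv⟩ := hex (m + 1) x hx
  refine ⟨m + 1, v, hv, hxv, ?_⟩
  rcases h.tree v hv.1 t htT with h6 | h6 | h6
  · exact h6.trans htO
  · exact absurd hm (disjoint_left.1 (hv.2.1 m (Nat.lt_succ_self m)) (h6 hyt))
  · exact absurd hxt (disjoint_left.1 h6 hxv)

/-- closed nowhere dense subspaces are metrizable -/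
theorem TB.metrizable [T6Space X] {T : Set (Set X)} (h : TB T) (K : Set X) (hK : IsClosed K)
    (hKn : interior K = ∅) : MetrizableSpace K := by
  obtain ⟨L, hLT, hLd, hLK, hLb⟩ := h.jumps K hK hKn
  choose! v hv hxv using hLK
  let f : K → ℕ → DCopy (Set X) := fun x n => v n x.1
  have hf : Topology.IsInducing f := by
    rw [Topology.isInducing_iff_nhds]
    intro x
    apply le_antisymm
    · rw [← Filter.tendsto_iff_comap, nhds_pi, Filter.tendsto_pi]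
      intro n
      rw [nhds_discrete (DCopy (Set X)), Filter.tendsto_pure]
      have h1 : (Subtype.val ⁻¹' (v n x.1) : Set K) ∈ nhds x :=
        (h.open (hLT n (hv n x.1 x.2))).preimage continuous_subtype_val |>.mem_nhds (hxv n x.1 x.2)
      filter_upwards [h1] with y hy
      exact hLd n _ (hv n y.1 y.2) _ (hv n x.1 x.2) y.1 (hxv n y.1 y.2) hy
    · intro S hS
      rw [nhds_subtype_eq_comap] at hS
      obtain ⟨U, hU, hUS⟩ := Filter.mem_comap.1 hS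
      obtain ⟨O, hOU, hO, hxO⟩ := mem_nhds_iff.1 hU
      obtain ⟨n, t, ht, hxt, htO⟩ := hLb x.1 x.2 O hO hxO
      rw [Filter.mem_comap]
      refine ⟨{g | g n = v n x.1}, ?_, ?_⟩
      · have h2 : IsOpen {g : ℕ → DCopy (Set X) | g n = v n x.1} :=
          (isOpen_discrete ({f x n} : Set (DCopy (Set X)))).preimage
            (continuous_apply (A := fun _ : ℕ => DCopy (Set X)) n)
        exact h2.mem_nhds rfl
      · intro y hy
        have hy' : v n y.1 = v n x.1 := hy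
        apply hUS
        apply hOU
        apply htO
        have h3 : v n x.1 = t := hLd n _ (hv n x.1 x.2) _ ht x.1 (hxv n x.1 x.2) hxt
        rw [← h3, ← hy']
        exact hxv n y.1 y.2
  have hinj : Function.Injective f := by
    intro x y hxy
    by_contra hne
    obtain ⟨n, t, ht, hxt, htO⟩ := hLb x.1 x.2 {y.1}ᶜ isClosed_singleton.isOpen_compl
      (fun h => hne (Subtype.ext h))
    have h3 : v n x.1 = t := hLd n _ (hv n x.1 x.2) _ ht x.1 (hxv n x.1 x.2) hxt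
    have h4 : v n x.1 = v n y.1 := congrFun hxy n
    have h5 : y.1 ∈ t := by
      rw [← h3, h4]
      exact hxv n y.1 y.2
    exact htO h5 rfl
  exact Topology.IsEmbedding.metrizableSpace (⟨hf, hinj⟩ : Topology.IsEmbedding f)

/-- every point of `D` is isolated in `D` -/
def Dsc (D : Set X) : Prop := ∀ x ∈ D, ∃ O : Set X, IsOpen O ∧ x ∈ O ∧ ∀ y ∈ D, y ∈ O → y = x

theorem dsc_iff (D : Set X) : DiscreteTopology D ↔ Dsc D := by
  constructor
  · intro hD x hx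
    have h2 : IsOpen ({⟨x, hx⟩} : Set D) := isOpen_discrete _
    obtain ⟨O, hO, hOx⟩ := isOpen_induced_iff.1 h2
    refine ⟨O, hO, ?_, ?_⟩
    · have : (⟨x, hx⟩ : D) ∈ (Subtype.val ⁻¹' O : Set D) := by rw [hOx]; rfl
      exact this
    · intro y hy hyO
      have h3 : (⟨y, hy⟩ : D) ∈ (Subtype.val ⁻¹' O : Set D) := hyO
      rw [hOx] at h3
      exact congrArg Subtype.val h3
  · intro h
    rw [discreteTopology_iff_isOpen_singleton]
    rintro ⟨x, hx⟩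
    obtain ⟨O, hO, hxO, hOx⟩ := h x hx
    rw [isOpen_induced_iff]
    refine ⟨O, hO, ?_⟩
    ext ⟨y, hy⟩
    constructor
    · intro hy'
      exact Subtype.ext (hOx y hy hy')
    · intro hy'
      have : y = x := congrArg Subtype.val hy'
      subst this
      exact hxO

/-- a well-order of type `ω₁` -/
abbrev Om : Type u := (ℵ_ 1 : Cardinal.{u}).ord.ToType

/-- `v` is in the closure of a union of at most `ℵ₁` discrete subspaces -/
def Good (v : Set X) : Prop :=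
  ∃ D : Om.{u} → Set X, (∀ ξ, Dsc (D ξ)) ∧ v ⊆ closure (⋃ ξ, D ξ)

theorem mk_Om : #Om.{u} = ℵ_ 1 := Cardinal.mk_ord_toType _

/-- families of size at most `ℵ₁` -/
theorem good_of_index {J : Type u} (hJ : #J ≤ ℵ_ 1) (D : J → Set X) (hD : ∀ j, Dsc (D j))
    {v : Set X} (hv : v ⊆ closure (⋃ j, D j)) : Good v := by
  obtain ⟨f⟩ : Nonempty (J ↪ Om.{u}) := by
    rw [← Cardinal.le_def, mk_Om]
    exact hJ
  classical
  refine ⟨fun ξ => {x | ∃ j, f j = ξ ∧ x ∈ D j}, ?_, ?_⟩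
  · rintro ξ x ⟨j, rfl, hx⟩
    obtain ⟨O, hO, hxO, hOx⟩ := hD j x hx
    refine ⟨O, hO, hxO, ?_⟩
    rintro y ⟨j', hj', hy⟩ hyO
    obtain rfl := f.injective hj'
    exact hOx y hy hyO
  · refine hv.trans (closure_mono ?_)
    refine iUnion_subset fun j x hx => mem_iUnion.2 ⟨f j, j, rfl, hx⟩

theorem good_of_family (𝓓 : Set (Set X)) (h : #𝓓 ≤ ℵ_ 1) (hD : ∀ D ∈ 𝓓, DiscreteTopology D)
    {v : Set X} (hv : v ⊆ closure (⋃₀ 𝓓)) : Good v := by
  refine good_of_index h (fun D : 𝓓 => D.1) (fun D => (dsc_iff _).1 (hD D.1 D.2)) ?_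
  rwa [← sUnion_eq_iUnion]

theorem Good.family {v : Set X} (h : Good v) : ∃ 𝓓 : Set (Set X), #𝓓 ≤ ℵ_ 1 ∧
    (∀ D ∈ 𝓓, DiscreteTopology D) ∧ v ⊆ closure (⋃₀ 𝓓) := by
  obtain ⟨D, hD, hv⟩ := h
  refine ⟨range D, mk_range_le.trans mk_Om.le, ?_, ?_⟩
  · rintro _ ⟨ξ, rfl⟩
    exact (dsc_iff _).2 (hD ξ)
  · rwa [sUnion_range]

theorem Good.mono {v w : Set X} (h : Good w) (hv : v ⊆ closure w) : Good v := by
  obtain ⟨D, hD, hw⟩ := h
  exact ⟨D, hD, hv.trans (closure_minimal hw isClosed_closure)⟩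

theorem Good.union {v w : Set X} (hv : Good v) (hw : Good w) : Good (v ∪ w) := by
  obtain ⟨D, hD, hvD⟩ := hv
  obtain ⟨D', hD', hwD⟩ := hw
  refine good_of_index (J := Om.{u} ⊕ Om.{u}) ?_ (Sum.elim D D') ?_ ?_
  · rw [Cardinal.mk_sum, Cardinal.lift_id, mk_Om]
    exact (Cardinal.add_eq_self (Cardinal.aleph0_le_aleph 1)).le
  · rintro (ξ | ξ)
    · exact hD ξ
    · exact hD' ξ
  · apply union_subset
    · refine hvD.trans (closure_mono ?_)
      exact iUnion_subset fun ξ x hx => mem_iUnion.2 ⟨Sum.inl ξ, hx⟩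
    · refine hwD.trans (closure_mono ?_)
      exact iUnion_subset fun ξ x hx => mem_iUnion.2 ⟨Sum.inr ξ, hx⟩

theorem Dsc.good {D : Set X} (h : Dsc D) : Good D := by
  refine good_of_index (J := PUnit) ?_ (fun _ => D) (fun _ => h) ?_
  · rw [Cardinal.mk_punit]
    exact Cardinal.one_le_aleph0.trans (Cardinal.aleph0_le_aleph 1)
  · rw [iUnion_const]
    exact subset_closure

/-- disjoint open unions -/
theorem good_sUnion (𝓥 : Set (Set X)) (ho : ∀ V ∈ 𝓥, IsOpen V)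
    (hd : ∀ V ∈ 𝓥, ∀ W ∈ 𝓥, ∀ x, x ∈ V → x ∈ W → V = W) (hg : ∀ V ∈ 𝓥, Good V) :
    Good (⋃₀ 𝓥) := by
  choose! D hD hV using hg
  refine ⟨fun ξ => {x | ∃ V ∈ 𝓥, x ∈ V ∧ x ∈ D V ξ}, ?_, ?_⟩
  · rintro ξ x ⟨V, hV𝓥, hxV, hxD⟩
    obtain ⟨O, hO, hxO, hOx⟩ := hD V hV𝓥 ξ x hxD
    refine ⟨O ∩ V, hO.inter (ho V hV𝓥), ⟨hxO, hxV⟩, ?_⟩
    rintro y ⟨W, hW, hyW, hyD⟩ ⟨hyO, hyV⟩
    obtain rfl := hd V hV𝓥 W hW y hyV hyW
    exact hOx y hyD hyO
  · rintro x ⟨V, hV𝓥, hxV⟩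
    rw [mem_closure_iff]
    intro O hO hxO
    obtain ⟨y, ⟨hyO, hyV⟩, hy⟩ := mem_closure_iff.1 (hV V hV𝓥 hxV) (O ∩ V) (hO.inter (ho V hV𝓥))
      ⟨hxO, hxV⟩
    obtain ⟨ξ, hξ⟩ := mem_iUnion.1 hy
    exact ⟨y, hyO, mem_iUnion.2 ⟨ξ, V, hV𝓥, hyV, hξ⟩⟩

/-- nowhere dense sets are in the closure of countably many discrete sets -/
theorem TB.nwd [T6Space X] {T : Set (Set X)} (h : TB T) (E : Set X) (hE : IsNowhereDense E) :
    ∃ D : ℕ → Set X, (∀ n, Dsc (D n)) ∧ E ⊆ closure (⋃ n, D n) := by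
  obtain ⟨L, hLT, hLd, -, hLb⟩ := h.jumps (closure E) isClosed_closure hE
  by_cases hX : Nonempty X
  swap
  · exact ⟨fun _ => ∅, fun _ x hx => absurd hx (notMem_empty x), fun x => absurd ⟨x⟩ hX⟩
  choose! pt hpt using fun (t : Set X) (ht : t ∈ T) => h.nonempty ht
  refine ⟨fun n => {x | ∃ t ∈ L n, pt t = x}, ?_, ?_⟩
  · rintro n x ⟨t, ht, rfl⟩
    refine ⟨t, h.open (hLT n ht), hpt t (hLT n ht), ?_⟩
    rintro y ⟨s, hs, rfl⟩ hst
    rw [hLd n s hs t ht _ (hpt s (hLT n hs)) hst]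
  · intro x hx
    rw [mem_closure_iff]
    intro O hO hxO
    obtain ⟨n, t, ht, -, htO⟩ := hLb x (subset_closure hx) O hO hxO
    exact ⟨pt t, htO (hpt t (hLT n ht)), mem_iUnion.2 ⟨n, t, ht, rfl⟩⟩

theorem TB.good_of_nwd [T6Space X] {T : Set (Set X)} (h : TB T) (𝓔 : Set (Set X))
    (h𝓔 : #𝓔 ≤ ℵ_ 1) (hE : ∀ E ∈ 𝓔, IsNowhereDense E) : Good (⋃₀ 𝓔) := by
  choose D hD hED using fun E : 𝓔 => h.nwd E.1 (hE E.1 E.2)
  refine good_of_index (J := 𝓔 × ULift.{u} ℕ) ?_ (fun j => D j.1 j.2.down)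
    (fun j => hD j.1 j.2.down) ?_
  · rw [Cardinal.mk_prod, Cardinal.lift_id, Cardinal.lift_id, Cardinal.mk_uLift, Cardinal.mk_nat,
      Cardinal.lift_aleph0]
    calc #𝓔 * ℵ₀ ≤ ℵ_ 1 * ℵ_ 1 := by
          gcongr
          exact Cardinal.aleph0_le_aleph 1
      _ = ℵ_ 1 := Cardinal.mul_eq_self (Cardinal.aleph0_le_aleph 1)
  · rintro x ⟨E, hE𝓔, hx⟩
    refine closure_mono ?_ (hED ⟨E, hE𝓔⟩ hx)
    exact iUnion_subset fun n y hy => mem_iUnion.2 ⟨(⟨E, hE𝓔⟩, ⟨n⟩), hy⟩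

/-- discrete sets without isolated points of the space are nowhere dense -/
theorem Dsc.nwd [T1Space X] {D : Set X} (h : Dsc D) (hi : ∀ x ∈ D, ¬ IsOpen ({x} : Set X)) :
    IsNowhereDense D := by
  by_contra hcon
  obtain ⟨x, hx⟩ := nonempty_iff_ne_empty.2 hcon
  obtain ⟨y, hyU, hyD⟩ := mem_closure_iff.1 (interior_subset hx) _ isOpen_interior hx
  obtain ⟨O, hO, hyO, hOy⟩ := h y hyD
  have h1 : interior (closure D) ∩ O ⊆ {y} := by
    rintro z ⟨hz, hzO⟩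
    by_contra hzy
    obtain ⟨w, ⟨hwO, hwy⟩, hwD⟩ := mem_closure_iff.1 (interior_subset hz) (O ∩ {y}ᶜ)
      (hO.inter isClosed_singleton.isOpen_compl) ⟨hzO, hzy⟩
    exact hwy (hOy w hwD hwO)
  have h2 : interior (closure D) ∩ O = {y} :=
    Subset.antisymm h1 (singleton_subset_iff.2 ⟨hyU, hyO⟩)
  exact hi y hyD (h2 ▸ isOpen_interior.inter hO)

theorem Dsc.mono {D D' : Set X} (h : Dsc D) (hD : D' ⊆ D) : Dsc D' := by
  intro x hx
  obtain ⟨O, hO, hxO, hOx⟩ := h x (hD hx)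
  exact ⟨O, hO, hxO, fun y hy hyO => hOx y (hD hy) hyO⟩

theorem dsc_of_subset_singleton {D : Set X} {x : X} (h : D ⊆ {x}) : Dsc D := by
  intro y hy
  refine ⟨univ, isOpen_univ, mem_univ _, fun z hz _ => ?_⟩
  rw [mem_singleton_iff.1 (h hz), mem_singleton_iff.1 (h hy)]

/-- a part without good subnodes -/
theorem TB.exists_bad [T6Space X] {T : Set (Set X)} (h : TB T) (hG : ¬ Good (univ : Set X)) :
    ∃ w ∈ T, ∀ v ∈ T, v ⊆ w → ¬ Good v := by
  by_contra hcon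
  push Not at hcon
  apply hG
  have h1 : Good (⋃₀ (FM T Good)) :=
    good_sUnion _ (fun V hV => h.open hV.1)
      (fun V hV W hW x hxV hxW => FM_unique h.tree hV hW hxV hxW) (fun V hV => hV.2.1)
  refine h1.mono ?_
  intro x _
  rw [mem_closure_iff]
  intro O hO hxO
  obtain ⟨w, hw, -, hwO⟩ := h.basis.exists_subset_of_mem_open hxO hO
  obtain ⟨v, hv, hvw, hvG⟩ := hcon w hw
  obtain ⟨t, ht, hvt⟩ := exists_FM h.wf hv hvG
  obtain ⟨y, hy⟩ := h.nonempty hv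
  exact ⟨y, hwO (hvw hy), t, ht, hvt hy⟩

theorem aleph_two_eq : (ℵ_ 2 : Cardinal.{u}) = Order.succ (ℵ_ 1) := by
  rw [Cardinal.succ_aleph]
  congr 1
  exact one_add_one_eq_two.symm

/-- The main structure theorem. -/
theorem TB.dichotomy [T6Space X] {T : Set (Set X)} (h : TB T) (hG : ¬ Good (univ : Set X)) :
    ∃ W ∈ T, ∃ κ : Cardinal.{u}, κ.IsRegular ∧ ℵ_ 2 ≤ κ ∧
      (∀ 𝓔 : Set (Set X), #𝓔 < κ → (∀ E ∈ 𝓔, E ⊆ W ∧ IsNowhereDense E) →
        IsNowhereDense (⋃₀ 𝓔)) ∧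
      ∃ F : κ.ord.ToType → Set X, Monotone F ∧
        (∀ i, IsClosed (F i) ∧ IsNowhereDense (F i)) ∧ ⋃ i, F i = W := by
  classical
  obtain ⟨w, hwT, hw⟩ := h.exists_bad hG
  have hiso : ∀ x ∈ w, ¬ IsOpen ({x} : Set X) := by
    intro x hxw hx
    obtain ⟨v, hv, -, hvx⟩ := h.basis.exists_subset_of_mem_open (mem_singleton x) hx
    have hvw : v ⊆ w := by
      intro y hy
      rw [mem_singleton_iff.1 (hvx hy)]
      exact hxw
    exact hw v hv hvw (dsc_of_subset_singleton hvx).good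
  have hsing : ∀ x ∈ w, IsNowhereDense ({x} : Set X) := by
    intro x hx
    refine (dsc_of_subset_singleton Subset.rfl).nwd ?_
    rintro y rfl
    exact hiso y hx
  let S : Set Cardinal.{u} := {μ | ∃ v ∈ T, v ⊆ w ∧ ∃ 𝓔 : Set (Set X), #𝓔 ≤ μ ∧
    (∀ E ∈ 𝓔, IsNowhereDense E) ∧ v ⊆ closure (⋃₀ 𝓔)}
  have hSne : S.Nonempty := by
    refine ⟨_, w, hwT, Subset.rfl, (fun x => ({x} : Set X)) '' w, le_rfl, ?_, ?_⟩
    · rintro _ ⟨x, hx, rfl⟩
      exact hsing x hx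
    · refine subset_closure.trans' ?_
      intro x hx
      exact ⟨{x}, ⟨x, hx, rfl⟩, rfl⟩
  obtain ⟨W, hWT, hWw, 𝓔₀, h𝓔c, h𝓔n, h𝓔W⟩ : sInf S ∈ S := csInf_mem hSne
  have hmin : ∀ μ ∈ S, sInf S ≤ μ := fun μ hμ => csInf_le' hμ
  set κ : Cardinal.{u} := sInf S with hκdef
  have hWo : IsOpen W := h.open hWT
  have hWc : IsClosed W := h.closed hWT
  have hWn : W.Nonempty := h.nonempty hWT
  have hκ1 : ℵ_ 1 < κ := by
    by_contra hle
    exact hw W hWT hWw ((h.good_of_nwd 𝓔₀ (h𝓔c.trans (not_lt.1 hle)) h𝓔n).mono h𝓔W)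
  have hκ2 : ℵ_ 2 ≤ κ := by
    rw [aleph_two_eq]
    exact Order.succ_le_of_lt hκ1
  have hκ0 : ℵ₀ < κ := (Cardinal.aleph0_le_aleph 1).trans_lt hκ1
  have hsmall : ∀ 𝓔 : Set (Set X), #𝓔 < κ → (∀ E ∈ 𝓔, E ⊆ W ∧ IsNowhereDense E) →
      IsNowhereDense (⋃₀ 𝓔) := by
    intro 𝓔 hc hE
    by_contra hn
    obtain ⟨x, hx⟩ := nonempty_iff_ne_empty.2 hn
    obtain ⟨v, hv, -, hvi⟩ := h.basis.exists_subset_of_mem_open hx isOpen_interior
    have h1 : v ⊆ closure (⋃₀ 𝓔) := hvi.trans interior_subset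
    have h2 : v ⊆ W := h1.trans (closure_minimal (sUnion_subset fun E hE' => (hE E hE').1) hWc)
    have h3 : #𝓔 ∈ S := ⟨v, hv, h2.trans hWw, 𝓔, le_rfl, fun E hE' => (hE E hE').2, h1⟩
    exact absurd (hmin _ h3) (not_le.2 hc)
  -- a set whose closure is W is not nowhere dense
  have hbig : ∀ A : Set X, W ⊆ closure A → ¬ IsNowhereDense A := by
    intro A hA hn
    obtain ⟨x, hx⟩ := hWn
    have h1 : x ∈ interior (closure A) := interior_maximal hA hWo hx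
    rw [hn] at h1
    exact h1
  -- enumeration
  have hιc : #κ.ord.ToType = κ := Cardinal.mk_ord_toType κ
  obtain ⟨g⟩ : Nonempty (𝓔₀ ↪ κ.ord.ToType) := by
    rw [← Cardinal.le_def, hιc]
    exact h𝓔c
  let f : κ.ord.ToType → Set X := fun i => {x | ∃ E : 𝓔₀, g E = i ∧ x ∈ E.1 ∧ x ∈ W}
  have hfW : ∀ i, f i ⊆ W := by
    rintro i x ⟨E, -, -, hx⟩
    exact hx
  have hfn : ∀ i, IsNowhereDense (f i) := by
    intro i
    by_cases hi : ∃ E : 𝓔₀, g E = i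
    · obtain ⟨E, rfl⟩ := hi
      refine (h𝓔n E.1 E.2).mono ?_
      rintro x ⟨E', hE', hx, -⟩
      rw [g.injective hE'] at hx
      exact hx
    · have : f i = ∅ := by
        ext x
        constructor
        · rintro ⟨E, hE, -⟩
          exact absurd ⟨E, hE⟩ hi
        · intro hx
          exact absurd hx (notMem_empty x)
      rw [this]
      exact isNowhereDense_empty
  have hfd : W ⊆ closure (⋃ i, f i) := by
    intro x hx
    rw [mem_closure_iff]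
    intro O hO hxO
    obtain ⟨y, ⟨hyO, hyW⟩, E, hE, hyE⟩ := mem_closure_iff.1 (h𝓔W hx) (O ∩ W) (hO.inter hWo)
      ⟨hxO, hx⟩
    exact ⟨y, hyO, mem_iUnion.2 ⟨g ⟨E, hE⟩, ⟨E, hE⟩, rfl, hyE, hyW⟩⟩
  have hIic : ∀ i : κ.ord.ToType, #(Iic i) < κ := by
    intro i
    have := Cardinal.mk_Iic_lt (α := κ.ord.ToType) i
      (by rw [hιc]; exact (Ordinal.type_toType _).symm) (by rw [hιc]; exact hκ0.le)
    rwa [hιc] at this
  let G : κ.ord.ToType → Set X := fun i => ⋃ j ∈ Iic i, f j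
  have hGW : ∀ i, G i ⊆ W := fun i => iUnion₂_subset fun j _ => hfW j
  have hGn : ∀ i, IsNowhereDense (G i) := by
    intro i
    have h1 := hsmall (f '' Iic i) (mk_image_le.trans_lt (hIic i)) (by
      rintro _ ⟨j, -, rfl⟩
      exact ⟨hfW j, hfn j⟩)
    rwa [sUnion_image] at h1
  have hGmono : Monotone G := by
    intro i j hij
    exact biUnion_subset_biUnion_left (Iic_subset_Iic.2 hij)
  have hreg : κ.IsRegular := by
    refine ⟨hκ0.le, ?_⟩
    rw [← Ordinal.cof_toType]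
    obtain ⟨C, hC, hCc⟩ := Order.exists_cof_eq κ.ord.ToType
    rw [← hCc]
    by_contra hlt
    have h1 := hsmall (G '' C) (mk_image_le.trans_lt (not_le.1 hlt)) (by
      rintro _ ⟨j, -, rfl⟩
      exact ⟨hGW j, hGn j⟩)
    refine hbig _ ?_ h1
    refine hfd.trans (closure_mono ?_)
    refine iUnion_subset fun j x hx => ?_
    obtain ⟨c, hc, hjc⟩ := hC j
    exact ⟨G c, ⟨c, hc, rfl⟩, mem_biUnion hjc hx⟩
  refine ⟨W, hWT, κ, hreg, hκ2, hsmall, fun i => closure (G i), ?_, ?_, ?_⟩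
  · intro i j hij
    exact closure_mono (hGmono hij)
  · intro i
    exact ⟨isClosed_closure, (hGn i).closure⟩
  · apply Subset.antisymm
    · exact iUnion_subset fun i => closure_minimal (hGW i) hWc
    · intro x hxW
      have hx1 : IsNowhereDense ({x} : Set X) := hsing x (hWw hxW)
      have hx2 : interior ({x} : Set X) = ∅ := by
        have := hx1
        unfold IsNowhereDense at this
        rwa [closure_singleton] at this
      obtain ⟨L, hLT, hLd, hLK, hLb⟩ := h.jumps {x} isClosed_singleton hx2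
      choose t ht hxt using fun n => hLK n x rfl
      have h3 : ∀ n, ∃ j, (t n ∩ f j).Nonempty := by
        intro n
        obtain ⟨y, hyt, hy⟩ := mem_closure_iff.1 (hfd hxW) (t n) (h.open (hLT n (ht n))) (hxt n)
        obtain ⟨j, hj⟩ := mem_iUnion.1 hy
        exact ⟨j, y, hyt, hj⟩
      choose j hj using h3
      have h4 : #(⋃ n : ULift.{u} ℕ, Iic (j n.down)) < κ := by
        rw [Cardinal.card_iUnion_lt_iff_forall_of_isRegular hreg]
        · intro n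
          exact hIic _
        · rw [Cardinal.mk_uLift, Cardinal.mk_nat, Cardinal.lift_aleph0]
          exact hκ0
      have h5 : ∃ i, i ∉ ⋃ n : ULift.{u} ℕ, Iic (j n.down) := by
        by_contra hcon
        push Not at hcon
        rw [eq_univ_of_forall hcon, Cardinal.mk_univ, hιc] at h4
        exact lt_irrefl _ h4
      obtain ⟨i, hi⟩ := h5
      have h6 : ∀ n, j n ≤ i := by
        intro n
        by_contra hcon
        exact hi (mem_iUnion.2 ⟨⟨n⟩, (not_le.1 hcon).le⟩)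
      refine mem_iUnion.2 ⟨i, ?_⟩
      show x ∈ closure (G i)
      rw [mem_closure_iff]
      intro O hO hxO
      obtain ⟨n, s, hs, hxs, hsO⟩ := hLb x rfl O hO hxO
      obtain rfl := hLd n s hs (t n) (ht n) x hxs (hxt n)
      obtain ⟨y, hyt, hyf⟩ := hj n
      exact ⟨y, hsO hyt, mem_biUnion (h6 n) hyf⟩

/-- the converse -/
theorem not_good_of [T1Space X] {W : Set X} (hWo : IsOpen W) (hWn : W.Nonempty)
    {κ : Cardinal.{u}} (hκ : ℵ_ 2 ≤ κ) (hsmall : ∀ 𝓔 : Set (Set X), #𝓔 < κ →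
      (∀ E ∈ 𝓔, E ⊆ W ∧ IsNowhereDense E) → IsNowhereDense (⋃₀ 𝓔))
    (hiso : ∀ x ∈ W, ¬ IsOpen ({x} : Set X)) : ¬ Good (univ : Set X) := by
  rintro ⟨D, hD, hd⟩
  have h1 : #(range fun ξ => D ξ ∩ W) < κ := by
    refine lt_of_le_of_lt (mk_range_le.trans mk_Om.le) (lt_of_lt_of_le ?_ hκ)
    rw [aleph_two_eq]
    exact Order.lt_succ _
  have h2 := hsmall _ h1 (by
    rintro _ ⟨ξ, rfl⟩
    exact ⟨inter_subset_right, ((hD ξ).mono inter_subset_left).nwd fun x hx => hiso x hx.2⟩)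
  have h3 : W ⊆ closure (⋃₀ (range fun ξ => D ξ ∩ W)) := by
    intro x hx
    rw [mem_closure_iff]
    intro O hO hxO
    obtain ⟨y, ⟨hyO, hyW⟩, hy⟩ := mem_closure_iff.1 (hd (mem_univ x)) (O ∩ W) (hO.inter hWo)
      ⟨hxO, hx⟩
    obtain ⟨ξ, hξ⟩ := mem_iUnion.1 hy
    exact ⟨y, hyO, _, ⟨ξ, rfl⟩, hξ, hyW⟩
  obtain ⟨x, hx⟩ := hWn
  have h4 : x ∈ interior (closure (⋃₀ (range fun ξ => D ξ ∩ W))) := interior_maximal h3 hWo hx
  rw [h2] at h4
  exact h4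

theorem TB.good_iff [T6Space X] {T : Set (Set X)} (h : TB T) :
    (∃ N : Set (Set X), IsTopologicalBasis N ∧ ∀ x : X, {U ∈ N | x ∈ U}.Countable) ↔
      Good (univ : Set X) := by
  constructor
  · rintro ⟨N, hN, hNc⟩
    obtain ⟨𝓓, h1, h2, h3⟩ := to_dense T h.basis h.zero h.tree h.wf N hN hNc
    exact good_of_family 𝓓 h1 h2 (fun x _ => h3 x)
  · intro hG
    obtain ⟨𝓓, h1, h2, h3⟩ := hG.family
    exact of_dense T h.basis h.zero h.tree h.wf 𝓓 h1 h2 (fun x => h3 (mem_univ x))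

/-- nowhere dense sets and isolated points -/
theorem TB.good_iff_nwd [T6Space X] {T : Set (Set X)} (h : TB T) :
    Good (univ : Set X) ↔ ∃ 𝓔 : Set (Set X), #𝓔 ≤ ℵ_ 1 ∧ (∀ E ∈ 𝓔, IsNowhereDense E) ∧
      Dense ({x : X | IsOpen ({x} : Set X)} ∪ ⋃₀ 𝓔) := by
  constructor
  · rintro ⟨D, hD, hd⟩
    refine ⟨range fun ξ => D ξ \ {x : X | IsOpen ({x} : Set X)}, mk_range_le.trans mk_Om.le,
      ?_, ?_⟩
    · rintro _ ⟨ξ, rfl⟩
      exact ((hD ξ).mono sdiff_subset).nwd fun x hx => hx.2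
    · intro x
      refine closure_mono ?_ (hd (mem_univ x))
      refine iUnion_subset fun ξ y hy => ?_
      by_cases hy' : IsOpen ({y} : Set X)
      · exact Or.inl hy'
      · exact Or.inr ⟨_, ⟨ξ, rfl⟩, hy, hy'⟩
  · rintro ⟨𝓔, h1, h2, h3⟩
    have h4 : Dsc {x : X | IsOpen ({x} : Set X)} := fun x hx =>
      ⟨{x}, hx, mem_singleton x, fun y _ hy => hy⟩
    exact (h4.good.union (h.good_of_nwd 𝓔 h1 h2)).mono fun x _ => h3 x

/-- The Baire dichotomy. -/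
theorem baire_dichotomy [T6Space X] (B : Set (Set X)) (hB : IsTopologicalBasis B)
    (hr : ∀ p, ∀ U ∈ B, ∀ V ∈ B, p ∈ U → p ∈ V → U ⊆ V ∨ V ⊆ U) :
    ((∃ N : Set (Set X), IsTopologicalBasis N ∧ ∀ x : X, {U ∈ N | x ∈ U}.Countable) ↔
      ∃ 𝓓 : Set (Set X), #𝓓 ≤ ℵ_ 1 ∧ (∀ D ∈ 𝓓, DiscreteTopology D) ∧ Dense (⋃₀ 𝓓)) ∧
    ((∃ N : Set (Set X), IsTopologicalBasis N ∧ ∀ x : X, {U ∈ N | x ∈ U}.Countable) ↔
      ∃ 𝓔 : Set (Set X), #𝓔 ≤ ℵ_ 1 ∧ (∀ E ∈ 𝓔, IsNowhereDense E) ∧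
        Dense ({x : X | IsOpen ({x} : Set X)} ∪ ⋃₀ 𝓔)) ∧
    ((¬ ∃ N : Set (Set X), IsTopologicalBasis N ∧ ∀ x : X, {U ∈ N | x ∈ U}.Countable) ↔
      ∃ (W : Set X) (κ : Cardinal.{u}), IsClopen W ∧ W.Nonempty ∧ κ.IsRegular ∧ ℵ_ 2 ≤ κ ∧
        (∀ 𝓔 : Set (Set X), #𝓔 < κ → (∀ E ∈ 𝓔, E ⊆ W ∧ IsNowhereDense E) →
          IsNowhereDense (⋃₀ 𝓔)) ∧
        ∃ F : κ.ord.ToType → Set X, Monotone F ∧
          (∀ i, IsClosed (F i) ∧ IsNowhereDense (F i)) ∧ ⋃ i, F i = W) ∧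
    ∀ K : Set X, IsClosed K → IsNowhereDense K → MetrizableSpace K := by
  obtain ⟨T, hT, h0, htree, hwf⟩ := exists_treeBase B hB hr
  have h : TB T := ⟨hT, h0, htree, hwf⟩
  refine ⟨iff_dense B hB hr, h.good_iff.trans h.good_iff_nwd, ?_, ?_⟩
  · rw [h.good_iff]
    constructor
    · intro hG
      obtain ⟨W, hW, κ, h1, h2, h3, h4⟩ := h.dichotomy hG
      exact ⟨W, κ, ⟨h.closed hW, h.open hW⟩, h.nonempty hW, h1, h2, h3, h4⟩
    · rintro ⟨W, κ, hW, hWn, -, h2, h3, F, -, hF, hFW⟩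
      refine not_good_of hW.isOpen hWn h2 h3 ?_
      intro x hx ho
      rw [← hFW] at hx
      obtain ⟨i, hi⟩ := mem_iUnion.1 hx
      have h5 : x ∈ interior (closure (F i)) :=
        interior_maximal (singleton_subset_iff.2 (subset_closure hi)) ho rfl
      rw [(hF i).2] at h5
      exact h5
  · intro K hK hKn
    refine h.metrizable K hK ?_
    unfold IsNowhereDense at hKn
    rwa [hK.closure_eq] at hKn

end

end Pool.Agent.Lib.MP_0d2ecd_gt
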