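import Pool.Agent.Lib.MP_0d2ecd_gt.Souslin

set_option autoImplicit false

open Set Cardinal TopologicalSpace
open scoped Ordinal

universe u

namespace Pool.Agent.Lib.MP_0d2ecd_gt

/-- `t` extends `s`, for functions defined on proper initial segments of `ω₂` -/
def Ext (s t : Σ β : W2, (Iio β → Bool)) : Prop :=
  ∃ h : s.1 ≤ t.1, ∀ ξ : Iio s.1, s.2 ξ = t.2 ⟨ξ.1, lt_of_lt_of_le ξ.2 h⟩

/-- `T` is a uniformly coherent `ω₂`-Souslin tree: a tree (with nonempty levels `T β`, `β < ω₂`) of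
`0`-`1` functions defined on proper initial segments of `ω₂`, closed under restrictions and under
finite modifications, any two members of one level differing at finitely many places only, and
without antichains of size `ℵ₂`. -/
structure IsCoherentSouslinTree (T : Set (Σ β : W2, (Iio β → Bool))) : Prop where
  level_nonempty : ∀ β, ∃ t ∈ T, t.1 = β
  restrict_mem : ∀ s t, Ext s t → t ∈ T → s ∈ T
  coherent : ∀ (β : W2) (s t : Iio β → Bool), ⟨β, s⟩ ∈ T → ⟨β, t⟩ ∈ T → {ξ | s ξ ≠ t ξ}.Finite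
  modify_mem : ∀ (β : W2) (s t : Iio β → Bool), ⟨β, s⟩ ∈ T → {ξ | s ξ ≠ t ξ}.Finite → ⟨β, t⟩ ∈ T
  antichain : ∀ A ⊆ T, (∀ s ∈ A, ∀ t ∈ A, s ≠ t → ¬ Ext s t) → #A ≤ ℵ_ 1

variable {T : Set (Σ β : W2, (Iio β → Bool))}

theorem exists_rho (hT : IsCoherentSouslinTree T) :
    ∃ ρ : W2 → W2 → Bool, (∀ β γ, γ ≤ β → (D γ (ρ β) (ρ γ)).Finite) ∧ CC ρ := by
  classical
  have h1 : ∀ β : W2, ∃ t : Iio β → Bool, (⟨β, t⟩ : Σ β : W2, (Iio β → Bool)) ∈ T := by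
    intro β
    obtain ⟨⟨β', t⟩, ht, rfl⟩ := hT.level_nonempty β
    exact ⟨t, ht⟩
  choose r hr using h1
  let ρ : W2 → W2 → Bool := fun β ξ => if h : ξ < β then r β ⟨ξ, h⟩ else false
  have hρ : ∀ β ξ (h : ξ < β), ρ β ξ = r β ⟨ξ, h⟩ := fun β ξ h => dif_pos h
  -- finite modifications are nodes
  have hnode : ∀ (β : W2) (g : W2 → Bool), (D β g (ρ β)).Finite →
      (⟨β, fun ξ => g ξ.1⟩ : Σ β : W2, (Iio β → Bool)) ∈ T := by
    intro β g hg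
    refine hT.modify_mem β (r β) _ (hr β) ?_
    refine Set.Finite.of_finite_image (f := Subtype.val) (hg.subset ?_)
      Subtype.val_injective.injOn
    rintro _ ⟨ξ, hξ, rfl⟩
    refine ⟨ξ.2, fun h => hξ ?_⟩
    rw [← hρ β ξ.1 ξ.2, ← h]
  refine ⟨ρ, ?_, ?_⟩
  · intro β γ hγ
    have h2 : (⟨γ, fun ξ => r β ⟨ξ.1, lt_of_lt_of_le ξ.2 hγ⟩⟩ : Σ β : W2, (Iio β → Bool)) ∈ T :=
      hT.restrict_mem _ ⟨β, r β⟩ ⟨hγ, fun ξ => rfl⟩ (hr β)
    have h3 := hT.coherent γ _ _ h2 (hr γ)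
    refine (h3.image Subtype.val).subset ?_
    rintro ξ ⟨hξ, hne⟩
    refine ⟨⟨ξ, hξ⟩, ?_, rfl⟩
    rw [hρ γ ξ hξ, hρ β ξ (lt_of_lt_of_le hξ hγ)] at hne
    exact hne
  · intro J lv g hfin hanti
    let F : J → Σ β : W2, (Iio β → Bool) := fun j => ⟨lv j, fun ξ => g j ξ.1⟩
    have hext : ∀ i j, Ext (F i) (F j) → i = j := by
      rintro i j ⟨hle, h⟩
      by_contra hij
      obtain ⟨ξ, hξ, hne⟩ := hanti i j hij hle
      exact hne (h ⟨ξ, hξ⟩)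
    have hinj : Function.Injective F := by
      intro i j hij
      apply hext
      rw [hij]
      exact ⟨le_rfl, fun ξ => rfl⟩
    have h4 : #(range F) ≤ ℵ_ 1 := by
      refine hT.antichain _ ?_ ?_
      · rintro _ ⟨j, rfl⟩
        exact hnode (lv j) (g j) (hfin j)
      · rintro _ ⟨i, rfl⟩ _ ⟨j, rfl⟩ hne h
        exact hne (by rw [hext i j h])
    rwa [Cardinal.mk_range_eq F hinj] at h4

/-- The negative answer from a uniformly coherent `ω₂`-Souslin tree. -/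
theorem negative (hT : IsCoherentSouslinTree T) :
    ∃ (X : Type) (_ : TopologicalSpace X) (_ : T6Space X),
      (∃ B : Set (Set X), IsTopologicalBasis B ∧ ∅ ∉ B ∧
        (∀ U ∈ B, ∀ V ∈ B, U ⊆ V ∨ V ⊆ U ∨ Disjoint U V) ∧
        (∀ U ∈ B, ∀ S ⊆ B, S.Nonempty → (∀ W ∈ S, U ⊆ W) → ∃ W ∈ S, ∀ W' ∈ S, W' ⊆ W)) ∧
      ¬ ∃ N : Set (Set X), IsTopologicalBasis N ∧ ∀ x : X, {U ∈ N | x ∈ U}.Countable := by
  obtain ⟨ρ, hρ, hcc⟩ := exists_rho hT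
  exact ⟨Pt ρ, inferInstance, t6 hρ hcc, ⟨BB ρ, isBasis, BB_ne, BB_comp, BB_wf⟩, no_base hρ hcc⟩

end Pool.Agent.Lib.MP_0d2ecd_gt
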