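import Pool.Agent.Lib.MP_0d2ecd_gt.TreeBase

set_option autoImplicit false

open Set Cardinal TopologicalSpace

universe u

namespace Pool.Agent.Lib.MP_0d2ecd_gt

section
variable {X : Type u}

/-- maximal members of a family with a given property -/
def FM (T : Set (Set X)) (Q : Set X → Prop) : Set (Set X) :=
  {t | t ∈ T ∧ Q t ∧ ∀ s ∈ T, t ⊂ s → ¬ Q s}

theorem exists_FM {T : Set (Set X)}
    (hwf : ∀ U ∈ T, ∀ S ⊆ T, S.Nonempty → (∀ W ∈ S, U ⊆ W) → ∃ W ∈ S, ∀ W' ∈ S, W' ⊆ W)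
    {Q : Set X → Prop} {t : Set X} (ht : t ∈ T) (hQ : Q t) : ∃ t' ∈ FM T Q, t ⊆ t' := by
  obtain ⟨W, ⟨hWT, htW, hQW⟩, hmax⟩ := hwf t ht {s | s ∈ T ∧ t ⊆ s ∧ Q s} (fun s hs => hs.1)
    ⟨t, ht, Subset.rfl, hQ⟩ (fun s hs => hs.2.1)
  exact ⟨W, ⟨hWT, hQW, fun s hs hWs hQs => hWs.2 (hmax s ⟨hs, htW.trans hWs.1, hQs⟩)⟩, htW⟩

theorem FM_unique {T : Set (Set X)} (htree : ∀ U ∈ T, ∀ V ∈ T, U ⊆ V ∨ V ⊆ U ∨ Disjoint U V)
    {Q : Set X → Prop} {x : X} {s t : Set X} (hs : s ∈ FM T Q) (ht : t ∈ FM T Q)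
    (hxs : x ∈ s) (hxt : x ∈ t) : s = t := by
  rcases htree s hs.1 t ht.1 with h | h | h
  · by_contra hne
    exact hs.2.2 t ht.1 (h.ssubset_of_ne hne) ht.2.1
  · by_contra hne
    exact ht.2.2 s hs.1 (h.ssubset_of_ne (Ne.symm hne)) hs.2.1
  · exact absurd hxt (disjoint_left.1 h hxs)

theorem FM_countable {T : Set (Set X)} (htree : ∀ U ∈ T, ∀ V ∈ T, U ⊆ V ∨ V ⊆ U ∨ Disjoint U V)
    (Q : Set X → Prop) (x : X) : {t | t ∈ FM T Q ∧ x ∈ t}.Countable := by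
  apply Set.Subsingleton.countable
  rintro s ⟨hs, hxs⟩ t ⟨ht, hxt⟩
  exact FM_unique htree hs ht hxs hxt

end

section
variable {X : Type u} [TopologicalSpace X] [T6Space X]

/-- open sets are countable unions of closed sets -/
theorem open_fsig {U : Set X} (hU : IsOpen U) :
    ∃ F : ℕ → Set X, (∀ n, IsClosed (F n)) ∧ U = ⋃ n, F n := by
  have h1 : IsGδ Uᶜ := hU.isClosed_compl.isGδ
  obtain ⟨f, hf, hUf⟩ := h1.eq_iInter_nat
  refine ⟨fun n => (f n)ᶜ, fun n => (hf n).isClosed_compl, ?_⟩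
  rw [← compl_iInter, ← hUf, compl_compl]

/-- If a tree base is a union of `Ω` many disjoint families, where `Ω` is a well-order with
countable initial segments in which all countable sets are bounded, then there is a
point-countable base. -/
theorem main_antichains {Ω : Type u} [LinearOrder Ω] [WellFoundedLT Ω]
    (hΩ : ∀ x : Ω, (Iio x).Countable) (hΩ2 : ∀ s : Set Ω, s.Countable → ∃ z, ∀ x ∈ s, x < z)
    (T : Set (Set X)) (hT : IsTopologicalBasis T) (h0 : ∅ ∉ T)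
    (htree : ∀ U ∈ T, ∀ V ∈ T, U ⊆ V ∨ V ⊆ U ∨ Disjoint U V)
    (hwf : ∀ U ∈ T, ∀ S ⊆ T, S.Nonempty → (∀ W ∈ S, U ⊆ W) → ∃ W ∈ S, ∀ W' ∈ S, W' ⊆ W)
    (A : Ω → Set (Set X)) (hA : ∀ t ∈ T, ∃ ξ, t ∈ A ξ) (hAT : ∀ ξ, A ξ ⊆ T)
    (hAd : ∀ ξ, ∀ a ∈ A ξ, ∀ b ∈ A ξ, ∀ x, x ∈ a → x ∈ b → a = b) :
    ∃ N : Set (Set X), IsTopologicalBasis N ∧ ∀ x : X, {U ∈ N | x ∈ U}.Countable := by
  classical
  have hne : ∀ t ∈ T, t.Nonempty := by
    intro t ht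
    rw [nonempty_iff_ne_empty]
    rintro rfl
    exact h0 ht
  let R : Ω → Set X → Prop := fun ξ t => ∀ η < ξ, ∀ a ∈ A η, ¬ a ⊆ t
  have hRher : ∀ ξ s t, s ⊆ t → R ξ t → R ξ s := fun ξ s t hst h η hη a ha has =>
    h η hη a ha (has.trans hst)
  let G : Ω → Set X := fun ξ => ⋃₀ {t | t ∈ T ∧ R ξ t}
  have hGanti : ∀ ξ ζ, ζ ≤ ξ → G ξ ⊆ G ζ := by
    rintro ξ ζ h x ⟨t, ⟨ht, hR⟩, hx⟩
    exact ⟨t, ⟨ht, fun η hη => hR η (lt_of_lt_of_le hη h)⟩, hx⟩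
  have hUo : ∀ ξ, IsOpen (⋃₀ (A ξ)) := fun ξ => isOpen_sUnion fun t ht => hT.isOpen (hAT ξ ht)
  choose F hF hUF using fun ξ => open_fsig (hUo ξ)
  -- every point leaves the sets `G ξ` at some stage
  have hleave : ∀ y, ∃ ζ, y ∉ G ζ := by
    intro y
    have hGδ : IsGδ ({y} : Set X) := isClosed_singleton.isGδ
    obtain ⟨V, hV, hyV⟩ := hGδ.eq_iInter_nat
    have h2 : ∀ n, ∃ t ∈ T, y ∈ t ∧ t ⊆ V n := by
      intro n
      have h3 : y ∈ ⋂ n, V n := hyV ▸ rfl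
      exact hT.exists_subset_of_mem_open (mem_iInter.1 h3 n) (hV n)
    choose t htT hyt htV using h2
    -- a countable base at `y`
    obtain ⟨c, hcT, hc⟩ : ∃ c : ℕ → Set X, (∀ n, c n ∈ T) ∧ ∀ s ∈ T, y ∈ s → ∃ n, c n ⊆ s := by
      by_cases hy : ({y} : Set X) ∈ T
      · exact ⟨fun _ => {y}, fun _ => hy, fun s _ hys => ⟨0, singleton_subset_iff.2 hys⟩⟩
      · refine ⟨t, htT, fun s hs hys => ?_⟩
        by_contra hcon
        push Not at hcon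
        have h4 : s ⊆ {y} := by
          rw [hyV]
          refine subset_iInter fun n => ?_
          rcases htree s hs (t n) (htT n) with h | h | h
          · exact h.trans (htV n)
          · exact absurd h (hcon n)
          · exact absurd (hyt n) (disjoint_left.1 h hys)
        have h5 : s = {y} := Subset.antisymm h4 (singleton_subset_iff.2 hys)
        exact hy (h5 ▸ hs)
    choose ξ hξ using fun n => hA (c n) (hcT n)
    obtain ⟨ζ, hζ⟩ := hΩ2 (range ξ) (countable_range ξ)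
    refine ⟨ζ, ?_⟩
    rintro ⟨s, ⟨hs, hR⟩, hys⟩
    obtain ⟨n, hn⟩ := hc s hs hys
    exact hR (ξ n) (hζ _ ⟨n, rfl⟩) (c n) (hξ n) hn
  have hcount : ∀ y, {ξ | y ∈ G ξ}.Countable := by
    intro y
    obtain ⟨ζ, hζ⟩ := hleave y
    refine (hΩ ζ).mono fun ξ hξ => ?_
    by_contra hcon
    exact hζ (hGanti ξ ζ (not_lt.1 hcon) hξ)
  let N1 : Ω → Set (Set X) := fun ξ => FM T (R ξ)
  let N2 : Ω → Set (Set X) := fun ξ => {a | a ∈ A ξ ∧ a ⊆ G ξ}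
  let N3 : Ω → ℕ → Set (Set X) := fun ξ n => FM T (fun t => R ξ t ∧ Disjoint t (F ξ n))
  have hN1G : ∀ ξ, ∀ a ∈ N1 ξ, a ⊆ G ξ := fun ξ a ha => subset_sUnion_of_mem ⟨ha.1, ha.2.1⟩
  have hN3G : ∀ ξ n, ∀ a ∈ N3 ξ n, a ⊆ G ξ := fun ξ n a ha =>
    subset_sUnion_of_mem ⟨ha.1, ha.2.1.1⟩
  refine ⟨(⋃ ξ, N1 ξ) ∪ (⋃ ξ, N2 ξ) ∪ ⋃ ξ, ⋃ n, N3 ξ n,
    isTopologicalBasis_of_isOpen_of_nhds ?_ ?_, ?_⟩
  · rintro V ((hV | hV) | hV)
    · obtain ⟨ξ, hV⟩ := mem_iUnion.1 hV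
      exact hT.isOpen hV.1
    · obtain ⟨ξ, hV⟩ := mem_iUnion.1 hV
      exact hT.isOpen (hAT ξ hV.1)
    · obtain ⟨ξ, hV⟩ := mem_iUnion.1 hV
      obtain ⟨n, hV⟩ := mem_iUnion.1 hV
      exact hT.isOpen hV.1
  · intro x O hxO hO
    obtain ⟨t0, ht0T, hxt0, ht0O⟩ := hT.exists_subset_of_mem_open hxO hO
    have hne1 : ({ζ | x ∉ G ζ} : Set Ω).Nonempty := hleave x
    have hxζ := WellFounded.min_mem (wellFounded_lt (α := Ω)) _ hne1
    set ζ := WellFounded.min (wellFounded_lt (α := Ω)) _ hne1 with hζdef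
    have hmin : ∀ ξ < ζ, x ∈ G ξ := by
      intro ξ hξ
      by_contra h
      exact WellFounded.not_lt_min (wellFounded_lt (α := Ω)) (s := {ζ | x ∉ G ζ}) (x := ξ) h hξ
    by_cases hh : ∃ ξ < ζ, ∃ h ∈ N1 ξ, x ∈ h ∧ h ⊆ t0
    · obtain ⟨ξ, -, h, hh, hxh, hht⟩ := hh
      exact ⟨h, Or.inl (Or.inl (mem_iUnion.2 ⟨ξ, hh⟩)), hxh, hht.trans ht0O⟩
    · push Not at hh
      have hR0 : ∀ ξ < ζ, R ξ t0 ∧ t0 ⊆ G ξ := by
        intro ξ hξ
        obtain ⟨t, ⟨htT, htR⟩, hxt⟩ := hmin ξ hξ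
        obtain ⟨h, hh1, hth⟩ := exists_FM (Q := R ξ) hwf htT htR
        have h1 := hh ξ hξ h hh1 (hth hxt)
        have h2 : t0 ⊆ h := by
          rcases htree t0 ht0T h hh1.1 with h3 | h3 | h3
          · exact h3
          · exact absurd h3 h1
          · exact absurd (hth hxt) (disjoint_left.1 h3 hxt0)
        exact ⟨hRher ξ t0 h h2 hh1.2.1, h2.trans (hN1G ξ h hh1)⟩
      have hnR : ∀ t ∈ T, x ∈ t → ∃ η < ζ, ∃ a ∈ A η, a ⊆ t := by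
        intro t ht hxt
        by_contra hcon
        push Not at hcon
        exact hxζ ⟨t, ⟨ht, hcon⟩, hxt⟩
      obtain ⟨η, hη, a0, ha0, ha0t⟩ := hnR t0 ht0T hxt0
      by_cases hxU : x ∈ ⋃₀ (A η)
      · obtain ⟨a, ha, hxa⟩ := hxU
        have hat0 : a ⊆ t0 := by
          rcases htree a (hAT η ha) t0 ht0T with h | h | h
          · exact h
          · obtain ⟨y, hy⟩ := hne a0 (hAT η ha0)
            have h1 : a = a0 := hAd η a ha a0 ha0 y (h (ha0t hy)) hy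
            rw [h1]
            exact ha0t
          · exact absurd hxt0 (disjoint_left.1 h hxa)
        exact ⟨a, Or.inl (Or.inr (mem_iUnion.2 ⟨η, ha, hat0.trans (hR0 η hη).2⟩)), hxa,
          hat0.trans ht0O⟩
      · obtain ⟨y, hy⟩ := hne a0 (hAT η ha0)
        have hyU : y ∈ ⋃₀ (A η) := ⟨a0, ha0, hy⟩
        rw [hUF η] at hyU
        obtain ⟨n, hyn⟩ := mem_iUnion.1 hyU
        have hxF : x ∉ F η n := by
          intro h
          apply hxU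
          rw [hUF η]
          exact mem_iUnion.2 ⟨n, h⟩
        obtain ⟨t1, ht1T, hxt1, ht1⟩ := hT.exists_subset_of_mem_open
          (show x ∈ t0 ∩ (F η n)ᶜ from ⟨hxt0, hxF⟩)
          ((hT.isOpen ht0T).inter (hF η n).isOpen_compl)
        obtain ⟨k, hk, ht1k⟩ := exists_FM (Q := fun t => R η t ∧ Disjoint t (F η n)) hwf ht1T
          ⟨hRher η t1 t0 (ht1.trans inter_subset_left) (hR0 η hη).1,
            disjoint_left.2 fun z hz hz' => (ht1 hz).2 hz'⟩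
        refine ⟨k, Or.inr (mem_iUnion.2 ⟨η, mem_iUnion.2 ⟨n, hk⟩⟩), ht1k hxt1, ?_⟩
        rcases htree t0 ht0T k hk.1 with h | h | h
        · exact absurd hyn (disjoint_left.1 hk.2.1.2 (h (ha0t hy)))
        · exact h.trans ht0O
        · exact absurd (ht1k hxt1) (disjoint_left.1 h hxt0)
  · intro y
    have h1 : {V | V ∈ (⋃ ξ, N1 ξ) ∪ (⋃ ξ, N2 ξ) ∪ (⋃ ξ, ⋃ n, N3 ξ n) ∧ y ∈ V} ⊆
        ⋃ ξ ∈ {ξ | y ∈ G ξ}, (({t | t ∈ N1 ξ ∧ y ∈ t} ∪ {t | t ∈ A ξ ∧ y ∈ t}) ∪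
          ⋃ n, {t | t ∈ N3 ξ n ∧ y ∈ t}) := by
      rintro V ⟨(hV | hV) | hV, hyV⟩
      · obtain ⟨ξ, hV⟩ := mem_iUnion.1 hV
        exact mem_biUnion (show ξ ∈ {ξ | y ∈ G ξ} from hN1G ξ V hV hyV) (Or.inl (Or.inl ⟨hV, hyV⟩))
      · obtain ⟨ξ, hV⟩ := mem_iUnion.1 hV
        exact mem_biUnion (show ξ ∈ {ξ | y ∈ G ξ} from hV.2 hyV) (Or.inl (Or.inr ⟨hV.1, hyV⟩))
      · obtain ⟨ξ, hV⟩ := mem_iUnion.1 hV
        obtain ⟨n, hV⟩ := mem_iUnion.1 hV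
        exact mem_biUnion (show ξ ∈ {ξ | y ∈ G ξ} from hN3G ξ n V hV hyV)
          (Or.inr (mem_iUnion.2 ⟨n, hV, hyV⟩))
    refine Set.Countable.mono h1 ((hcount y).biUnion fun ξ _ => ?_)
    refine Set.Countable.union (Set.Countable.union ?_ ?_) ?_
    · exact FM_countable htree _ _
    · apply Set.Subsingleton.countable
      rintro s ⟨hs, hys⟩ t ⟨ht, hyt⟩
      exact hAd ξ s hs t ht y hys hyt
    · exact countable_iUnion fun n => FM_countable htree _ _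

end

end Pool.Agent.Lib.MP_0d2ecd_gt
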