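import Pool.Agent.Lib.MP_0d2ecd_gt.Iff

set_option autoImplicit false

open Set Cardinal TopologicalSpace

universe u

namespace Pool.Agent.Lib.MP_0d2ecd_gt

/-- `[Z]^{≤ ℵ₁}` carries a proper, `σ`-complete, fine ideal `I` such that the `I`-positive sets
have a `σ`-closed dense subset `D`. -/
def HasSigmaClosedIdeal (Z : Type u) : Prop :=
  ∃ I D : Set (Set {a : Set Z // #a ≤ ℵ_ 1}),
    (∅ ∈ I ∧ Set.univ ∉ I ∧ (∀ A ∈ I, ∀ B, B ⊆ A → B ∈ I) ∧
      (∀ A : ℕ → Set {a : Set Z // #a ≤ ℵ_ 1}, (∀ n, A n ∈ I) → (⋃ n, A n) ∈ I) ∧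
      ∀ z : Z, {a : {a : Set Z // #a ≤ ℵ_ 1} | z ∉ a.1} ∈ I) ∧
    (∀ A ∈ D, A ∉ I) ∧ (∀ A, A ∉ I → ∃ B ∈ D, B ⊆ A) ∧
      ∀ A : ℕ → Set {a : Set Z // #a ≤ ℵ_ 1}, (∀ n, A n ∈ D) → (∀ n, A (n + 1) ⊆ A n) →
        ∃ B ∈ D, ∀ n, B ⊆ A n

section
variable {X : Type u} [TopologicalSpace X] [T6Space X]

/-- the central recursion: a `σ`-disjoint `π`-base of `Y` -/
theorem exists_pibase (hI : HasSigmaClosedIdeal X) (T : Set (Set X)) (hT : IsTopologicalBasis T)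
    (h0 : ∅ ∉ T) (htree : ∀ U ∈ T, ∀ V ∈ T, U ⊆ V ∨ V ⊆ U ∨ Disjoint U V)
    (hwf : ∀ U ∈ T, ∀ S ⊆ T, S.Nonempty → (∀ W ∈ S, U ⊆ W) → ∃ W ∈ S, ∀ W' ∈ S, W' ⊆ W)
    (Y : Set X) (hYo : IsOpen Y)
    (hYd : ∀ v ∈ T, v ⊆ Y → ∀ a : Set X, #a ≤ ℵ_ 1 → ¬ v ⊆ closure a) :
    ∃ W : ℕ → Set (Set X), (∀ n, ∀ w ∈ W n, w ∈ T) ∧
      (∀ n, ∀ w ∈ W n, ∀ w' ∈ W n, ∀ x, x ∈ w → x ∈ w' → w = w') ∧
      ∀ u ∈ T, u ⊆ Y → ∃ n, ∃ w ∈ W n, w ⊆ u := by
  classical
  obtain ⟨I, D, ⟨hI0, hI1, hIm, hIs, hIf⟩, hDI, hDd, hDs⟩ := hI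
  have hne : ∀ t ∈ T, t.Nonempty := by
    intro t ht
    rw [nonempty_iff_ne_empty]
    rintro rfl
    exact h0 ht
  let Z : Type u := {a : Set X // #a ≤ ℵ_ 1}
  -- the closed sets
  have hF : ∀ a : Z, ∃ F : ℕ → Set X, (∀ n, IsClosed (F n)) ∧ (closure a.1)ᶜ = ⋃ n, F n :=
    fun a => open_fsig isClosed_closure.isOpen_compl
  choose F hFc hFu using hF
  have hunion2 : ∀ A B : Set Z, A ∈ I → B ∈ I → A ∪ B ∈ I := by
    intro A B hA hB
    have := hIs (fun n => if n = 0 then A else B) (by intro n; split_ifs <;> assumption)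
    refine hIm _ this _ ?_
    rintro z (hz | hz)
    · exact mem_iUnion.2 ⟨0, by simpa using hz⟩
    · exact mem_iUnion.2 ⟨1, by simpa using hz⟩
  -- the step
  have hstep : ∀ (x : X) (v : Set X) (q : Set Z) (k : ℕ), x ∈ v → IsOpen v → v ⊆ Y → q ∈ D →
      ∃ w ∈ T, x ∈ w ∧ w ⊆ v ∧ ∃ q' ∈ D, q' ⊆ q ∧ ∀ a ∈ q', Disjoint w (F a k) := by
    intro x v q k hxv hvo hvY hq
    have hG : IsGδ ({x} : Set X) := IsClosed.isGδ isClosed_singleton
    obtain ⟨G, hGo, hGx⟩ := hG.eq_iInter_nat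
    have hw : ∀ n, ∃ w ∈ T, x ∈ w ∧ w ⊆ v ∩ G n := by
      intro n
      have hxG : x ∈ G n := by
        have : x ∈ ⋂ n, G n := by rw [← hGx]; rfl
        exact mem_iInter.1 this n
      obtain ⟨w, hw, hxw, hwv⟩ := hT.exists_subset_of_mem_open (show x ∈ v ∩ G n from ⟨hxv, hxG⟩)
        (hvo.inter (hGo n))
      exact ⟨w, hw, hxw, hwv⟩
    choose w hwT hxw hwv using hw
    -- positive part
    let A : Set Z := {a | a ∈ q ∧ x ∈ a.1}
    have hA : A ∉ I := by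
      intro hA
      refine hDI q hq (hIm _ (hunion2 _ _ hA (hIf x)) _ ?_)
      intro a ha
      by_cases hxa : x ∈ a.1
      · exact Or.inl ⟨ha, hxa⟩
      · exact Or.inr hxa
    let An : ℕ → Set Z := fun n => {a | a ∈ A ∧ Disjoint (w n) (F a k)}
    have hAn : A ⊆ ⋃ n, An n := by
      intro a ha
      have hxF : x ∉ F a k := by
        intro h
        have h1 : x ∈ ⋃ n, F a n := mem_iUnion.2 ⟨k, h⟩
        rw [← hFu a] at h1
        exact h1 (subset_closure ha.2)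
      obtain ⟨t, ht, hxt, htF⟩ := hT.exists_subset_of_mem_open
        (show x ∈ v ∩ (F a k)ᶜ from ⟨hxv, hxF⟩) (hvo.inter (hFc a k).isOpen_compl)
      have hex : ∃ n, w n ⊆ t := by
        by_contra hcon
        push Not at hcon
        have h1 : t ⊆ {x} := by
          rw [hGx]
          intro y hy
          rw [mem_iInter]
          intro n
          rcases htree (w n) (hwT n) t ht with h | h | h
          · exact absurd h (hcon n)
          · exact (hwv n (h hy)).2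
          · exact absurd hxt (disjoint_left.1 h (hxw n))
        refine hYd t ht (fun y hy => hvY (htF hy).1) {x} ?_ (h1.trans subset_closure)
        rw [Cardinal.mk_singleton]
        exact le_trans Cardinal.one_le_aleph0 (Cardinal.aleph0_le_aleph 1)
      obtain ⟨n, hn⟩ := hex
      refine mem_iUnion.2 ⟨n, ha, ?_⟩
      rw [disjoint_left]
      intro y hy hyF
      exact (htF (hn hy)).2 hyF
    have hpos : ∃ n, An n ∉ I := by
      by_contra hcon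
      push Not at hcon
      exact hA (hIm _ (hIs An hcon) _ hAn)
    obtain ⟨n, hn⟩ := hpos
    obtain ⟨q', hq', hq'n⟩ := hDd _ hn
    exact ⟨w n, hwT n, hxw n, fun y hy => (hwv n hy).1, q', hq',
      fun a ha => (hq'n ha).1.1, fun a ha => (hq'n ha).2⟩
  -- the recursion
  obtain ⟨q0, hq0, -⟩ := hDd Set.univ hI1
  let Q : ℕ → Set X × Set Z → Set X → Prop := fun k p w =>
    w ⊆ p.1 ∧ ∃ q' ∈ D, q' ⊆ p.2 ∧ ∀ a ∈ q', Disjoint w (F a k)
  let nx : ℕ → Set X × Set Z → Set X → Set Z := fun k p w =>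
    if h : ∃ q' ∈ D, q' ⊆ p.2 ∧ ∀ a ∈ q', Disjoint w (F a k) then Classical.choose h else q0
  have hnx : ∀ k p w, Q k p w → nx k p w ∈ D ∧ nx k p w ⊆ p.2 ∧
      ∀ a ∈ nx k p w, Disjoint w (F a k) := by
    intro k p w h
    have h1 : nx k p w = Classical.choose h.2 := dif_pos h.2
    rw [h1]
    exact Classical.choose_spec h.2
  let R : ℕ → Set (Set X × Set Z) := fun k => Nat.rec {(Y, q0)}
    (fun k S => {p | ∃ p' ∈ S, p.1 ∈ FM T (Q k p') ∧ p.2 = nx k p' p.1}) k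
  have hR0 : R 0 = {(Y, q0)} := rfl
  have hRs : ∀ k, R (k + 1) = {p | ∃ p' ∈ R k, p.1 ∈ FM T (Q k p') ∧ p.2 = nx k p' p.1} :=
    fun k => rfl
  have hinv : ∀ k, ∀ p ∈ R k, p.2 ∈ D ∧ IsOpen p.1 ∧ p.1 ⊆ Y := by
    intro k
    induction k with
    | zero =>
      intro p hp
      rw [hR0] at hp
      have : p = (Y, q0) := hp
      subst this
      exact ⟨hq0, hYo, Subset.rfl⟩
    | succ k ih =>
      intro p hp
      rw [hRs] at hp
      obtain ⟨p', hp', h1, h2⟩ := hp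
      refine ⟨?_, hT.isOpen h1.1, h1.2.1.1.trans (ih p' hp').2.2⟩
      rw [h2]
      exact (hnx k p' p.1 h1.2.1).1
  have huniq : ∀ k, ∀ p ∈ R k, ∀ p' ∈ R k, ∀ x, x ∈ p.1 → x ∈ p'.1 → p = p' := by
    intro k
    induction k with
    | zero =>
      intro p hp p' hp' x _ _
      rw [hR0] at hp hp'
      have h1 : p = (Y, q0) := hp
      have h2 : p' = (Y, q0) := hp'
      rw [h1, h2]
    | succ k ih =>
      intro p hp p' hp' x hx hx'
      rw [hRs] at hp hp'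
      obtain ⟨r, hr, h1, h2⟩ := hp
      obtain ⟨r', hr', h1', h2'⟩ := hp'
      have hrr : r = r' := ih r hr r' hr' x (h1.2.1.1 hx) (h1'.2.1.1 hx')
      subst hrr
      have h3 : p.1 = p'.1 := FM_unique htree h1 h1' hx hx'
      refine Prod.ext h3 ?_
      rw [h2, h2', h3]
  have hcov : ∀ k, ∀ x ∈ Y, ∃ p ∈ R k, x ∈ p.1 := by
    intro k
    induction k with
    | zero =>
      intro x hx
      exact ⟨(Y, q0), rfl, hx⟩
    | succ k ih =>
      intro x hx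
      obtain ⟨p, hp, hxp⟩ := ih x hx
      obtain ⟨hp2, hpo, hpY⟩ := hinv k p hp
      obtain ⟨w, hw, hxw, hwp, q', hq', hq'p, hdis⟩ := hstep x p.1 p.2 k hxp hpo hpY hp2
      obtain ⟨t, ht, hwt⟩ := exists_FM (Q := Q k p) hwf hw ⟨hwp, q', hq', hq'p, hdis⟩
      exact ⟨(t, nx k p t), ⟨p, hp, ht, rfl⟩, hwt hxw⟩
  have hRT : ∀ k, ∀ p ∈ R (k + 1), p.1 ∈ T := by
    intro k p hp
    rw [hRs] at hp
    obtain ⟨p', hp', h1, h2⟩ := hp
    exact h1.1
  refine ⟨fun n => {w | ∃ p ∈ R (n + 1), p.1 = w}, ?_, ?_, ?_⟩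
  · rintro n _ ⟨p, hp, rfl⟩
    exact hRT n p hp
  · rintro n _ ⟨p, hp, rfl⟩ _ ⟨p', hp', rfl⟩ x hx hx'
    rw [huniq (n + 1) p hp p' hp' x hx hx']
  · intro u hu huY
    by_contra hcon
    push Not at hcon
    obtain ⟨x, hx⟩ := hne u hu
    choose p hpR hxp using fun k => hcov k x (huY hx)
    have hsub : ∀ k, u ⊆ (p (k + 1)).1 := by
      intro k
      rcases htree u hu (p (k + 1)).1 (hRT k _ (hpR (k + 1))) with h | h | h
      · exact h
      · exact absurd h (hcon k _ ⟨p (k + 1), hpR (k + 1), rfl⟩)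
      · exact absurd (hxp (k + 1)) (disjoint_left.1 h hx)
    have hstep2 : ∀ k, (p (k + 1)).2 ⊆ (p k).2 ∧ ∀ a ∈ (p (k + 1)).2,
        Disjoint (p (k + 1)).1 (F a k) := by
      intro k
      have h := hpR (k + 1)
      rw [hRs] at h
      obtain ⟨p', hp', h1, h2⟩ := h
      have hpp : p' = p k := huniq k p' hp' (p k) (hpR k) x (h1.2.1.1 (hxp (k + 1))) (hxp k)
      subst hpp
      have h3 := hnx k (p k) (p (k + 1)).1 h1.2.1
      rw [← h2] at h3
      exact ⟨h3.2.1, h3.2.2⟩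
    obtain ⟨q, hq, hqp⟩ := hDs (fun k => (p k).2) (fun k => (hinv k _ (hpR k)).1)
      (fun k => (hstep2 k).1)
    have hqne : q.Nonempty := by
      rw [nonempty_iff_ne_empty]
      rintro rfl
      exact hDI _ hq hI0
    obtain ⟨a, ha⟩ := hqne
    refine hYd u hu huY a.1 a.2 ?_
    intro y hy
    by_contra hya
    have h1 : y ∈ ⋃ n, F a n := by
      rw [← hFu a]; exact hya
    obtain ⟨k, hk⟩ := mem_iUnion.1 h1
    exact disjoint_left.1 ((hstep2 k).2 a (hqp (k + 1) ha)) (hsub k hy) hk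

omit [T6Space X] in
/-- a selector of a disjoint family of open sets has a discrete range -/
theorem discrete_selector (V : Set (Set X)) (hVo : ∀ v ∈ V, IsOpen v)
    (hVd : ∀ v ∈ V, ∀ v' ∈ V, ∀ x, x ∈ v → x ∈ v' → v = v') (f : Set X → X) :
    DiscreteTopology ({x | ∃ v ∈ V, f v ∈ v ∧ f v = x} : Set X) := by
  rw [discreteTopology_iff_isOpen_singleton]
  rintro ⟨x, v, hv, hvx, rfl⟩
  rw [isOpen_induced_iff]
  refine ⟨v, hVo v hv, ?_⟩
  ext ⟨y, v', hv', hvy, rfl⟩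
  constructor
  · intro hy
    have hy' : f v' ∈ v := hy
    have : v = v' := hVd v hv v' hv' _ hy' hvy
    subst this
    rfl
  · intro hy
    have hy' : f v' = f v := congrArg Subtype.val hy
    show f v' ∈ v
    rw [hy']
    exact hvx

/-- The positive answer for spaces whose underlying set carries the ideal. -/
theorem positive (hI : HasSigmaClosedIdeal X) (B : Set (Set X)) (hB : IsTopologicalBasis B)
    (hr : ∀ p, ∀ U ∈ B, ∀ V ∈ B, p ∈ U → p ∈ V → U ⊆ V ∨ V ⊆ U) :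
    ∃ N : Set (Set X), IsTopologicalBasis N ∧ ∀ x : X, {U ∈ N | x ∈ U}.Countable := by
  classical
  rw [iff_dense B hB hr]
  obtain ⟨T, hT, h0, htree, hwf⟩ := exists_treeBase B hB hr
  have hne : ∀ t ∈ T, t.Nonempty := by
    intro t ht
    rw [nonempty_iff_ne_empty]
    rintro rfl
    exact h0 ht
  rcases isEmpty_or_nonempty X with hX | hX
  · refine ⟨∅, by simp, by simp, ?_⟩
    intro x
    exact (hX.false x).elim
  obtain ⟨x0⟩ := hX
  let Q : Set X → Prop := fun v => ∃ a : Set X, #a ≤ ℵ_ 1 ∧ v ⊆ closure a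
  let V : Set (Set X) := FM T Q
  let Y : Set X := (closure (⋃₀ V))ᶜ
  have hYo : IsOpen Y := isClosed_closure.isOpen_compl
  have hYd : ∀ v ∈ T, v ⊆ Y → ∀ a : Set X, #a ≤ ℵ_ 1 → ¬ v ⊆ closure a := by
    intro v hv hvY a ha hva
    obtain ⟨t, ht, hvt⟩ := exists_FM (Q := Q) hwf hv ⟨a, ha, hva⟩
    obtain ⟨y, hy⟩ := hne v hv
    exact hvY hy (subset_closure ⟨t, ht, hvt hy⟩)
  obtain ⟨W, hWT, hWd, hWπ⟩ := exists_pibase hI T hT h0 htree hwf Y hYo hYd
  obtain ⟨Ω, _, _, hΩc, hΩ, hΩ2⟩ := omega_one_facts.{u}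
  have hVsel : ∀ v : Set X, ∃ f : Ω → X, Q v → ∀ O : Set X, IsOpen O → (O ∩ v).Nonempty →
      IsOpen v → ∃ ξ, f ξ ∈ O ∩ v := by
    intro v
    by_cases hv : Q v
    · obtain ⟨a, ha, hva⟩ := hv
      rcases a.eq_empty_or_nonempty with rfl | ⟨b, hb⟩
      · refine ⟨fun _ => x0, fun _ O hO ⟨y, hy⟩ hvo => ?_⟩
        have := hva hy.2
        simp at this
      · have h1 : #a ≤ #Ω := by rw [hΩc]; exact ha
        have h2 : Nonempty a := ⟨⟨b, hb⟩⟩
        obtain ⟨g⟩ := h1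
        refine ⟨fun ξ => (Function.invFun g ξ).1, fun _ O hO ⟨y, hy⟩ hvo => ?_⟩
        obtain ⟨z, hz, hza⟩ := mem_closure_iff.1 (hva hy.2) (O ∩ v) (hO.inter hvo) hy
        refine ⟨g ⟨z, hza⟩, ?_⟩
        show (Function.invFun g (g ⟨z, hza⟩)).1 ∈ O ∩ v
        rw [Function.leftInverse_invFun g.injective]
        exact hz
    · exact ⟨fun _ => x0, fun h => absurd h hv⟩
  choose f hf using hVsel
  choose pt hpt using fun t : T => hne t.1 t.2
  let pt' : Set X → X := fun v => if h : v ∈ T then pt ⟨v, h⟩ else x0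
  have hpt' : ∀ v ∈ T, pt' v ∈ v := by
    intro v hv
    have : pt' v = pt ⟨v, hv⟩ := dif_pos hv
    rw [this]
    exact hpt ⟨v, hv⟩
  let D1 : Ω → Set X := fun ξ => {x | ∃ v ∈ V, f v ξ ∈ v ∧ f v ξ = x}
  let D2 : ULift.{u} ℕ → Set X := fun n => {x | ∃ v ∈ W n.down, pt' v ∈ v ∧ pt' v = x}
  refine ⟨range D1 ∪ range D2, ?_, ?_, ?_⟩
  · refine (mk_union_le _ _).trans ?_
    have h1 : #(range D1) ≤ ℵ_ 1 := mk_range_le.trans hΩc.le
    have h2 : #(range D2) ≤ ℵ_ 1 := by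
      refine mk_range_le.trans ?_
      rw [Cardinal.mk_uLift, Cardinal.mk_nat, Cardinal.lift_aleph0]
      exact Cardinal.aleph0_le_aleph 1
    exact Cardinal.add_le_of_le (Cardinal.aleph0_le_aleph 1) h1 h2
  · rintro D (⟨ξ, rfl⟩ | ⟨n, rfl⟩)
    · exact discrete_selector V (fun v hv => hT.isOpen hv.1)
        (fun v hv v' hv' x hx hx' => FM_unique htree hv hv' hx hx') (fun v => f v ξ)
    · exact discrete_selector (W n.down) (fun v hv => hT.isOpen (hWT n.down v hv))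
        (fun v hv v' hv' x hx hx' => hWd n.down v hv v' hv' x hx hx') pt'
  · rw [dense_iff_inter_open]
    rintro O hO ⟨x, hx⟩
    obtain ⟨t, ht, hxt, htO⟩ := hT.exists_subset_of_mem_open hx hO
    by_cases hdis : Disjoint t (⋃₀ V)
    · have htY : t ⊆ Y := by
        intro y hy hyc
        obtain ⟨z, hz, hz'⟩ := mem_closure_iff.1 hyc t (hT.isOpen ht) hy
        exact disjoint_left.1 hdis hz hz'
      obtain ⟨n, w, hw, hwt⟩ := hWπ t ht htY
      have hwT := hWT n w hw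
      exact ⟨pt' w, htO (hwt (hpt' w hwT)), D2 ⟨n⟩, Or.inr ⟨_, rfl⟩, w, hw, hpt' w hwT, rfl⟩
    · obtain ⟨y, hyt, v, hv, hyv⟩ := Set.not_disjoint_iff.1 hdis
      obtain ⟨ξ, hξ⟩ := hf v hv.2.1 t (hT.isOpen ht) ⟨y, hyt, hyv⟩ (hT.isOpen hv.1)
      exact ⟨f v ξ, htO hξ.1, D1 ξ, Or.inl ⟨ξ, rfl⟩, v, hv, hξ.2, rfl⟩

end

end Pool.Agent.Lib.MP_0d2ecd_gt
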