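import Pool.Agent.Lib.MP_0d2ecd_gt.Disc

set_option autoImplicit false

open Set Cardinal TopologicalSpace

universe u

namespace Pool.Agent.Lib.MP_0d2ecd_gt

/-- facts about the well-order of type `ω₁` -/
theorem omega_one_facts : ∃ (Ω : Type u) (_ : LinearOrder Ω) (_ : WellFoundedLT Ω),
    #Ω = ℵ_ 1 ∧ (∀ x : Ω, (Iio x).Countable) ∧
    ∀ s : Set Ω, s.Countable → ∃ z, ∀ x ∈ s, x < z := by
  let Ω : Type u := (ℵ_ 1 : Cardinal.{u}).ord.ToType
  have hΩc : #Ω = ℵ_ 1 := Cardinal.mk_ord_toType _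
  have hs1 : (ℵ_ 1 : Cardinal.{u}) = Order.succ ℵ₀ := by
    rw [← Cardinal.aleph_zero, Cardinal.succ_aleph]
    congr 1
    norm_num
  have hΩ : ∀ x : Ω, (Iio x).Countable := by
    intro x
    have h1 : #(Iio x) < ℵ_ 1 := by
      have := Cardinal.mk_Iio_lt (α := Ω) x (by rw [hΩc]; exact (Ordinal.type_toType _).symm)
      rwa [hΩc] at this
    rw [← Cardinal.le_aleph0_iff_set_countable]
    exact Order.lt_succ_iff.1 (h1.trans_eq hs1)
  refine ⟨Ω, inferInstance, inferInstance, hΩc, hΩ, ?_⟩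
  intro s hs
  by_contra hcon
  push Not at hcon
  have h1 : (univ : Set Ω) ⊆ ⋃ x ∈ s, (Iio x ∪ {x}) := by
    intro z _
    obtain ⟨x, hx, hzx⟩ := hcon z
    refine mem_biUnion hx ?_
    rcases lt_or_eq_of_le hzx with h | h
    · exact Or.inl h
    · exact Or.inr h
  have h2 : (univ : Set Ω).Countable :=
    (hs.biUnion fun x _ => (hΩ x).union (countable_singleton x)).mono h1
  rw [← Cardinal.le_aleph0_iff_set_countable, Cardinal.mk_univ, hΩc, hs1] at h2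
  exact absurd h2 (not_le.2 (Order.lt_succ _))

section
variable {X : Type u} [TopologicalSpace X] [T6Space X]

/-- the splitting of a discrete subspace into closed discrete pieces -/
theorem split_discrete (D : Set X) (hD : DiscreteTopology D) : ∃ E : ℕ → Set X,
    (∀ x ∈ D, ∃ n, x ∈ E n) ∧ ∀ n, ∀ x, ∃ O : Set X, IsOpen O ∧ x ∈ O ∧ O ∩ E n ⊆ {x} := by
  have h1 : ∀ x ∈ D, ∃ O : Set X, IsOpen O ∧ O ∩ D = {x} := by
    intro x hx
    have h2 : IsOpen ({⟨x, hx⟩} : Set D) := isOpen_discrete _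
    obtain ⟨O, hO, hOx⟩ := isOpen_induced_iff.1 h2
    refine ⟨O, hO, ?_⟩
    ext y
    constructor
    · rintro ⟨hy, hyD⟩
      have h3 : (⟨y, hyD⟩ : D) ∈ (Subtype.val ⁻¹' O : Set D) := hy
      rw [hOx] at h3
      exact congrArg Subtype.val h3
    · rintro rfl
      have h3 : (⟨y, hx⟩ : D) ∈ (Subtype.val ⁻¹' O : Set D) := by rw [hOx]; rfl
      exact ⟨h3, hx⟩
  choose! O hO hOD using h1
  have hW : IsOpen (⋃ x ∈ D, O x) := isOpen_biUnion hO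
  obtain ⟨F, hF, hWF⟩ := open_fsig hW
  refine ⟨fun n => D ∩ F n, ?_, ?_⟩
  · intro x hx
    have h3 : x ∈ O x ∩ D := by rw [hOD x hx]; rfl
    have h4 : x ∈ ⋃ x ∈ D, O x := mem_biUnion hx h3.1
    rw [hWF] at h4
    obtain ⟨n, hn⟩ := mem_iUnion.1 h4
    exact ⟨n, hx, hn⟩
  · intro n x
    by_cases hxD : x ∈ D
    · have h3 : x ∈ O x ∩ D := by rw [hOD x hxD]; rfl
      refine ⟨O x, hO x hxD, h3.1, ?_⟩
      rintro y ⟨hy, hyD, -⟩
      rw [← hOD x hxD]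
      exact ⟨hy, hyD⟩
    · by_cases hxF : x ∈ F n
      · have h4 : x ∈ ⋃ x ∈ D, O x := by rw [hWF]; exact mem_iUnion.2 ⟨n, hxF⟩
        simp only [mem_iUnion] at h4
        obtain ⟨y, hyD, hxy⟩ := h4
        have hne : x ≠ y := by
          rintro rfl; exact hxD hyD
        refine ⟨O y ∩ {y}ᶜ, (hO y hyD).inter isClosed_singleton.isOpen_compl, ⟨hxy, hne⟩, ?_⟩
        rintro z ⟨⟨hz, hzy⟩, hzD, -⟩
        have h5 : z ∈ O y ∩ D := ⟨hz, hzD⟩
        rw [hOD y hyD] at h5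
        exact absurd h5 hzy
      · refine ⟨(F n)ᶜ, (hF n).isOpen_compl, hxF, ?_⟩
        rintro z ⟨hz, -, hz'⟩
        exact absurd hz' hz

/-- from a dense union of `ℵ₁` discrete subspaces to a point-countable base -/
theorem of_dense (T : Set (Set X)) (hT : IsTopologicalBasis T) (h0 : ∅ ∉ T)
    (htree : ∀ U ∈ T, ∀ V ∈ T, U ⊆ V ∨ V ⊆ U ∨ Disjoint U V)
    (hwf : ∀ U ∈ T, ∀ S ⊆ T, S.Nonempty → (∀ W ∈ S, U ⊆ W) → ∃ W ∈ S, ∀ W' ∈ S, W' ⊆ W)
    (𝓓 : Set (Set X)) (h𝓓 : #𝓓 ≤ ℵ_ 1) (hdisc : ∀ D ∈ 𝓓, DiscreteTopology D)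
    (hdense : Dense (⋃₀ 𝓓)) :
    ∃ N : Set (Set X), IsTopologicalBasis N ∧ ∀ x : X, {U ∈ N | x ∈ U}.Countable := by
  classical
  obtain ⟨Ω, _, _, hΩc, hΩ, hΩ2⟩ := omega_one_facts.{u}
  choose E hE1 hE2 using fun D : 𝓓 => split_discrete D.1 (hdisc D.1 D.2)
  let J : Type u := Option ((𝓓 × ULift.{u} ℕ) × ULift.{u} Bool)
  have hJ : #J ≤ ℵ_ 1 := by
    have h1 : #(ULift.{u} ℕ) ≤ ℵ_ 1 := by
      rw [Cardinal.mk_uLift, Cardinal.mk_nat, Cardinal.lift_aleph0]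
      exact Cardinal.aleph0_le_aleph 1
    have h2 : #(ULift.{u} Bool) ≤ ℵ_ 1 := by
      have : #(ULift.{u} Bool) ≤ ℵ₀ := Cardinal.mk_le_aleph0
      exact this.trans (Cardinal.aleph0_le_aleph 1)
    rw [Cardinal.mk_option, Cardinal.mk_prod, Cardinal.mk_prod]
    simp only [Cardinal.lift_id]
    have h3 : (ℵ_ 1 : Cardinal.{u}) * ℵ_ 1 = ℵ_ 1 :=
      Cardinal.mul_eq_self (Cardinal.aleph0_le_aleph 1)
    calc #𝓓 * #(ULift.{u} ℕ) * #(ULift.{u} Bool) + 1 ≤ ℵ_ 1 * ℵ_ 1 * ℵ_ 1 + 1 := by gcongr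
      _ = ℵ_ 1 := by rw [h3, h3]; exact Cardinal.add_one_eq (Cardinal.aleph0_le_aleph 1)
  obtain ⟨f⟩ : Nonempty (J ↪ Ω) := by
    rw [← Cardinal.le_def, hΩc]
    exact hJ
  let fam : J → Set (Set X) := fun j => match j with
    | none => {t | t ∈ T ∧ ∃ x, t = {x}}
    | some ((D, n), ⟨false⟩) => FM T (fun t => Disjoint t (E D n.down))
    | some ((D, n), ⟨true⟩) => FM T (fun t => (t ∩ E D n.down).Subsingleton)
  have hfamT : ∀ j, fam j ⊆ T := by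
    rintro (_ | ⟨⟨D, n⟩, ⟨_ | _⟩⟩) t ht
    · exact ht.1
    · exact ht.1
    · exact ht.1
  have hfamd : ∀ j, ∀ a ∈ fam j, ∀ b ∈ fam j, ∀ x, x ∈ a → x ∈ b → a = b := by
    rintro (_ | ⟨⟨D, n⟩, ⟨_ | _⟩⟩) a ha b hb x hxa hxb
    · obtain ⟨-, y, rfl⟩ := ha
      obtain ⟨-, z, rfl⟩ := hb
      obtain rfl : x = y := hxa
      obtain rfl : x = z := hxb
      rfl
    · exact FM_unique htree ha hb hxa hxb
    · exact FM_unique htree ha hb hxa hxb
  let T' : Set (Set X) := ⋃ j, fam j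
  have hT'T : T' ⊆ T := iUnion_subset hfamT
  -- for every point and every discrete piece there is a node of the corresponding family
  have hnode : ∀ x (D : 𝓓) (n : ℕ), ∃ t ∈ T', x ∈ t ∧ (t ∩ E D n ⊆ {x}) := by
    intro x D n
    obtain ⟨O, hO, hxO, hOE⟩ := hE2 D n x
    obtain ⟨t, htT, hxt, htO⟩ := hT.exists_subset_of_mem_open hxO hO
    have htE : t ∩ E D n ⊆ {x} := fun z hz => hOE ⟨htO hz.1, hz.2⟩
    by_cases hxE : x ∈ E D n
    · obtain ⟨s, hs, hts⟩ := exists_FM (Q := fun t => (t ∩ E D n).Subsingleton) hwf htT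
        ((subsingleton_singleton (a := x)).anti htE)
      refine ⟨s, mem_iUnion.2 ⟨some ((D, ⟨n⟩), ⟨true⟩), hs⟩, hts hxt, ?_⟩
      intro z hz
      exact hs.2.1 hz ⟨hts hxt, hxE⟩
    · have htd : Disjoint t (E D n) := by
        rw [disjoint_left]
        intro z hz hz'
        obtain rfl : z = x := htE ⟨hz, hz'⟩
        exact hxE hz'
      obtain ⟨s, hs, hts⟩ := exists_FM (Q := fun t => Disjoint t (E D n)) hwf htT htd
      refine ⟨s, mem_iUnion.2 ⟨some ((D, ⟨n⟩), ⟨false⟩), hs⟩, hts hxt, ?_⟩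
      rintro z ⟨hz, hz'⟩
      exact absurd hz' (disjoint_left.1 hs.2.1 hz)
  have hT' : IsTopologicalBasis T' := by
    refine isTopologicalBasis_of_isOpen_of_nhds (fun t ht => hT.isOpen (hT'T ht)) ?_
    intro x O hxO hO
    obtain ⟨t, htT, hxt, htO⟩ := hT.exists_subset_of_mem_open hxO hO
    by_cases hsing : t = {x}
    · exact ⟨t, mem_iUnion.2 ⟨none, htT, x, hsing⟩, hxt, htO⟩
    · have h1 : (t ∩ {x}ᶜ).Nonempty := by
        by_contra hcon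
        rw [not_nonempty_iff_eq_empty] at hcon
        apply hsing
        apply Subset.antisymm _ (singleton_subset_iff.2 hxt)
        intro z hz
        by_contra h
        have : z ∈ t ∩ {x}ᶜ := ⟨hz, h⟩
        rw [hcon] at this
        exact this
      obtain ⟨d, ⟨hdt, hdx⟩, D, hD𝓓, hdD⟩ := hdense.inter_open_nonempty _
        ((hT.isOpen htT).inter isClosed_singleton.isOpen_compl) h1
      obtain ⟨n, hn⟩ := hE1 ⟨D, hD𝓓⟩ d hdD
      obtain ⟨s, hs, hxs, hsE⟩ := hnode x ⟨D, hD𝓓⟩ n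
      refine ⟨s, hs, hxs, ?_⟩
      rcases htree s (hT'T hs) t htT with h | h | h
      · exact h.trans htO
      · exact absurd (hsE ⟨h hdt, hn⟩) hdx
      · exact absurd hxt (disjoint_left.1 h hxs)
  refine main_antichains hΩ hΩ2 T' hT' (fun h => h0 (hT'T h))
    (fun U hU V hV => htree U (hT'T hU) V (hT'T hV))
    (fun U hU S hS hSn hUS => hwf U (hT'T hU) S (hS.trans hT'T) hSn hUS)
    (fun ξ => {t | ∃ j, f j = ξ ∧ t ∈ fam j}) ?_ ?_ ?_
  · intro t ht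
    obtain ⟨j, hj⟩ := mem_iUnion.1 ht
    exact ⟨f j, j, rfl, hj⟩
  · rintro ξ t ⟨j, -, ht⟩
    exact mem_iUnion.2 ⟨j, ht⟩
  · rintro ξ a ⟨j, hj, ha⟩ b ⟨j', hj', hb⟩ x hxa hxb
    obtain rfl : j = j' := f.injective (hj.trans hj'.symm)
    exact hfamd j a ha b hb x hxa hxb

omit [T6Space X] in
/-- from a point-countable base to a dense union of `ℵ₁` discrete subspaces -/
theorem to_dense (T : Set (Set X)) (hT : IsTopologicalBasis T) (h0 : ∅ ∉ T)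
    (htree : ∀ U ∈ T, ∀ V ∈ T, U ⊆ V ∨ V ⊆ U ∨ Disjoint U V)
    (hwf : ∀ U ∈ T, ∀ S ⊆ T, S.Nonempty → (∀ W ∈ S, U ⊆ W) → ∃ W ∈ S, ∀ W' ∈ S, W' ⊆ W)
    (N : Set (Set X)) (hN : IsTopologicalBasis N) (hNc : ∀ x : X, {U ∈ N | x ∈ U}.Countable) :
    ∃ 𝓓 : Set (Set X), #𝓓 ≤ ℵ_ 1 ∧ (∀ D ∈ 𝓓, DiscreteTopology D) ∧ Dense (⋃₀ 𝓓) := by
  classical
  have hne : ∀ t ∈ T, t.Nonempty := by
    intro t ht
    rw [nonempty_iff_ne_empty]
    rintro rfl
    exact h0 ht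
  -- a point-countable subfamily of `T`
  let T' : Set (Set X) := ⋃ b ∈ N, FM T (fun t => t ⊆ b)
  have hT'T : T' ⊆ T := by
    intro t ht
    simp only [T', mem_iUnion] at ht
    obtain ⟨b, -, ht⟩ := ht
    exact ht.1
  have hT'b : ∀ x (O : Set X), x ∈ O → IsOpen O → ∃ t ∈ T', x ∈ t ∧ t ⊆ O := by
    intro x O hxO hO
    obtain ⟨b, hb, hxb, hbO⟩ := hN.exists_subset_of_mem_open hxO hO
    obtain ⟨t, ht, hxt, htb⟩ := hT.exists_subset_of_mem_open hxb (hN.isOpen hb)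
    obtain ⟨s, hs, hts⟩ := exists_FM (Q := fun t => t ⊆ b) hwf ht htb
    exact ⟨s, mem_biUnion hb hs, hts hxt, hs.2.1.trans hbO⟩
  have hT'c : ∀ x, {t | t ∈ T' ∧ x ∈ t}.Countable := by
    intro x
    have h1 : {t | t ∈ T' ∧ x ∈ t} ⊆ ⋃ b ∈ {U ∈ N | x ∈ U}, {t | t ∈ FM T (fun t => t ⊆ b) ∧
        x ∈ t} := by
      rintro t ⟨ht, hxt⟩
      simp only [T', mem_iUnion] at ht
      obtain ⟨b, hb, ht⟩ := ht
      exact mem_biUnion (show b ∈ {U ∈ N | x ∈ U} from ⟨hb, ht.2.1 hxt⟩) ⟨ht, hxt⟩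
    exact ((hNc x).biUnion fun b _ => FM_countable htree _ _).mono h1
  -- the rank
  let r : T' → T' → Prop := fun s t => t.1 ⊂ s.1
  have hr : WellFounded r := by
    rw [WellFounded.wellFounded_iff_has_min]
    rintro S ⟨U, hU⟩
    obtain ⟨W, ⟨⟨hWB, hWS⟩, hUW⟩, hmax⟩ := hwf U.1 (hT'T U.2)
      {W | (∃ h : W ∈ T', (⟨W, h⟩ : T') ∈ S) ∧ U.1 ⊆ W} (fun W hW => hT'T hW.1.1)
      ⟨U.1, ⟨U.2, hU⟩, Subset.rfl⟩ (fun W hW => hW.2)
    refine ⟨⟨W, hWB⟩, hWS, fun s hs hlt => ?_⟩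
    exact hlt.2 (hmax s.1 ⟨⟨s.2, hs⟩, hUW.trans hlt.1⟩)
  obtain ⟨Ω, _, _, hΩc, hΩ, hΩ2⟩ := omega_one_facts.{u}
  have hsup : ∀ t : T', {s : T' | r s t}.Countable := by
    intro t
    obtain ⟨x, hx⟩ := hne t.1 (hT'T t.2)
    refine Set.Countable.mono (s₂ := Subtype.val ⁻¹' {s | s ∈ T' ∧ x ∈ s}) ?_
      ((hT'c x).preimage Subtype.val_injective)
    intro s hs
    exact ⟨s.2, hs.1 hx⟩
  have hstep : ∀ (t : T') (ih : ∀ s : T', r s t → Ω), ∃ z : Ω, ∀ (s : T') (h : r s t),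
      ih s h < z := by
    intro t ih
    have := (hsup t).to_subtype
    obtain ⟨z, hz⟩ := hΩ2 (range (fun s : {s : T' | r s t} => ih s.1 s.2)) (countable_range _)
    exact ⟨z, fun s h => hz _ ⟨⟨s, h⟩, rfl⟩⟩
  let g : T' → Ω := WellFounded.fix hr (fun t ih => Classical.choose (hstep t ih))
  have hg : ∀ s t : T', r s t → g s < g t := by
    intro s t h
    have h1 : g t = Classical.choose (hstep t (fun s _ => g s)) := WellFounded.fix_eq hr _ t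
    rw [h1]
    exact Classical.choose_spec (hstep t (fun s _ => g s)) s h
  choose pt hpt using fun t : T' => hne t.1 (hT'T t.2)
  let D : Ω → Set X := fun ξ => {x | ∃ t : T', g t = ξ ∧ pt t = x}
  refine ⟨range D, mk_range_le.trans hΩc.le, ?_, ?_⟩
  · rintro _ ⟨ξ, rfl⟩
    rw [discreteTopology_iff_isOpen_singleton]
    rintro ⟨x, t, ht, rfl⟩
    rw [isOpen_induced_iff]
    refine ⟨t.1, hT.isOpen (hT'T t.2), ?_⟩
    ext ⟨y, s, hs, rfl⟩
    constructor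
    · intro hy
      have hy' : pt s ∈ t.1 := hy
      have hst : s = t := by
        apply Subtype.ext
        rcases htree s.1 (hT'T s.2) t.1 (hT'T t.2) with h | h | h
        · by_contra hne'
          have := hg t s (h.ssubset_of_ne hne')
          rw [hs, ht] at this
          exact lt_irrefl _ this
        · by_contra hne'
          have := hg s t (h.ssubset_of_ne (Ne.symm hne'))
          rw [hs, ht] at this
          exact lt_irrefl _ this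
        · exact absurd hy' (disjoint_left.1 h (hpt s))
      subst hst
      rfl
    · intro hy
      have hy' : pt s = pt t := congrArg Subtype.val hy
      show pt s ∈ t.1
      rw [hy']
      exact hpt t
  · rw [dense_iff_inter_open]
    rintro O hO ⟨x, hx⟩
    obtain ⟨t, ht, hxt, htO⟩ := hT'b x O hx hO
    exact ⟨pt ⟨t, ht⟩, htO (hpt ⟨t, ht⟩), D (g ⟨t, ht⟩), ⟨_, rfl⟩, ⟨t, ht⟩, rfl, rfl⟩

/-- The characterisation. -/
theorem iff_dense (B : Set (Set X)) (hB : IsTopologicalBasis B)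
    (hr : ∀ p, ∀ U ∈ B, ∀ V ∈ B, p ∈ U → p ∈ V → U ⊆ V ∨ V ⊆ U) :
    (∃ N : Set (Set X), IsTopologicalBasis N ∧ ∀ x : X, {U ∈ N | x ∈ U}.Countable) ↔
    ∃ 𝓓 : Set (Set X), #𝓓 ≤ ℵ_ 1 ∧ (∀ D ∈ 𝓓, DiscreteTopology D) ∧ Dense (⋃₀ 𝓓) := by
  obtain ⟨T, hT, h0, htree, hwf⟩ := exists_treeBase B hB hr
  constructor
  · rintro ⟨N, hN, hNc⟩
    exact to_dense T hT h0 htree hwf N hN hNc
  · rintro ⟨𝓓, h1, h2, h3⟩
    exact of_dense T hT h0 htree hwf 𝓓 h1 h2 h3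

end

end Pool.Agent.Lib.MP_0d2ecd_gt
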