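import Mathlib

set_option autoImplicit false

open Set Cardinal
open scoped Ordinal

universe u

namespace Pool.Agent.Lib.MP_0d2ecd_gt

/-- the canonical well-ordered set of order type `ω₂` -/
abbrev W2 : Type := (ω_ 2 : Ordinal.{0}).ToType

theorem mk_W2 : #W2 = ℵ_ 2 := by
  rw [Cardinal.mk_toType, Ordinal.card_omega]

theorem isRegular_aleph_two : (ℵ_ 2 : Cardinal.{0}).IsRegular := by
  have := Cardinal.isRegular_aleph_add_one (1 : Ordinal.{0})
  rwa [one_add_one_eq_two] at this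

theorem cof_W2 : Order.cof W2 = ℵ_ 2 := by
  rw [Ordinal.cof_toType]
  exact isRegular_aleph_two.cof_omega_eq

theorem aleph_two_eq : (ℵ_ 2 : Cardinal.{0}) = Order.succ (ℵ_ 1) := by
  rw [Cardinal.succ_aleph, one_add_one_eq_two]

theorem mk_Iio_W2 (x : W2) : #(Iio x) ≤ ℵ_ 1 := by
  have h := Cardinal.mk_Iio_lt (α := W2) x (by
    rw [mk_W2, Ordinal.type_toType, Cardinal.ord_aleph])
  rw [mk_W2, aleph_two_eq] at h
  exact Order.lt_succ_iff.1 h

theorem exists_gt_of_mk_le {s : Set W2} (hs : #s ≤ ℵ_ 1) : ∃ b, ∀ x ∈ s, x < b := by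
  rw [← not_isCofinal_iff]
  intro h
  have := Order.cof_le h
  rw [cof_W2] at this
  have h3 : (ℵ_ 1 : Cardinal.{0}) < ℵ_ 2 := Cardinal.aleph_lt_aleph.2 one_lt_two
  exact absurd (this.trans hs) (not_le.2 h3)

theorem exists_gt_W2 (a : W2) : ∃ b, a < b := by
  obtain ⟨b, hb⟩ := exists_gt_of_mk_le (s := {a}) (by
    rw [Cardinal.mk_singleton]
    exact le_trans Cardinal.one_le_aleph0 (Cardinal.aleph0_le_aleph 1))
  exact ⟨b, hb a rfl⟩

theorem exists_gt_seq (f : ℕ → W2) : ∃ b, ∀ n, f n < b := by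
  obtain ⟨b, hb⟩ := exists_gt_of_mk_le (s := range f) (by
    refine le_trans ?_ (Cardinal.aleph0_le_aleph 1)
    exact Cardinal.le_aleph0_iff_set_countable.2 (countable_range f))
  exact ⟨b, fun i => hb _ ⟨i, rfl⟩⟩

end Pool.Agent.Lib.MP_0d2ecd_gt
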