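import Pool.Agent.Lib.MP_0d2ecd_gt.Iff
import Pool.Agent.Lib.MP_0d2ecd_gt.W2

set_option autoImplicit false

open Set Cardinal TopologicalSpace
open scoped Ordinal

universe u

namespace Pool.Agent.Lib.MP_0d2ecd_gt

/-- the places below `β` where `s` and `t` differ -/
def D (β : W2) (s t : W2 → Bool) : Set W2 := {ξ | ξ < β ∧ s ξ ≠ t ξ}

theorem D_symm (β : W2) (s t : W2 → Bool) : D β s t = D β t s := by
  ext ξ; exact ⟨fun h => ⟨h.1, h.2.symm⟩, fun h => ⟨h.1, h.2.symm⟩⟩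

theorem D_tri (β : W2) (s t r : W2 → Bool) : D β s r ⊆ D β s t ∪ D β t r := by
  rintro ξ ⟨h1, h2⟩
  by_cases h : s ξ = t ξ
  · exact Or.inr ⟨h1, fun h' => h2 (h.trans h')⟩
  · exact Or.inl ⟨h1, h⟩

theorem D_mono {γ β : W2} (h : γ ≤ β) (s t : W2 → Bool) : D γ s t ⊆ D β s t :=
  fun _ hξ => ⟨lt_of_lt_of_le hξ.1 h, hξ.2⟩

theorem D_congr {β : W2} {s s' : W2 → Bool} (t : W2 → Bool) (h : ∀ ξ < β, s ξ = s' ξ) :
    D β s t = D β s' t := by
  ext ξ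
  constructor
  · rintro ⟨h1, h2⟩
    exact ⟨h1, by rw [← h ξ h1]; exact h2⟩
  · rintro ⟨h1, h2⟩
    exact ⟨h1, by rw [h ξ h1]; exact h2⟩

/-- the branches of the tree given by a coherent sequence which are not nodes -/
structure Pt (ρ : W2 → W2 → Bool) : Type where
  len : W2
  f : W2 → Bool
  out : ∀ ξ, len ≤ ξ → f ξ = false
  below : ∀ γ < len, (D γ f (ρ γ)).Finite
  top : ¬ (D len f (ρ len)).Finite

section
variable {ρ : W2 → W2 → Bool} (hρ : ∀ β γ, γ ≤ β → (D γ (ρ β) (ρ γ)).Finite)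

/-- basic sets -/
def U (x : Pt ρ) (β : W2) : Set (Pt ρ) := {y | β < y.len ∧ ∀ ξ < β, y.f ξ = x.f ξ}

/-- the base -/
def BB (ρ : W2 → W2 → Bool) : Set (Set (Pt ρ)) := {V | ∃ (x : Pt ρ) (β : W2), β < x.len ∧ V = U x β}

instance : TopologicalSpace (Pt ρ) := generateFrom (BB ρ)

theorem mem_U_self {x : Pt ρ} {β : W2} (h : β < x.len) : x ∈ U x β := ⟨h, fun _ _ => rfl⟩

theorem U_eq {x y : Pt ρ} {β : W2} (h : y ∈ U x β) : U x β = U y β := by
  ext z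
  constructor
  · rintro ⟨h1, h2⟩
    exact ⟨h1, fun ξ hξ => (h2 ξ hξ).trans (h.2 ξ hξ).symm⟩
  · rintro ⟨h1, h2⟩
    exact ⟨h1, fun ξ hξ => (h2 ξ hξ).trans (h.2 ξ hξ)⟩

theorem U_anti (x : Pt ρ) {β γ : W2} (h : β ≤ γ) : U x γ ⊆ U x β :=
  fun _ hy => ⟨lt_of_le_of_lt h hy.1, fun ξ hξ => hy.2 ξ (lt_of_lt_of_le hξ h)⟩

theorem BB_comp : ∀ V ∈ BB ρ, ∀ W ∈ BB ρ, V ⊆ W ∨ W ⊆ V ∨ Disjoint V W := by
  rintro _ ⟨x, β, hβ, rfl⟩ _ ⟨y, γ, hγ, rfl⟩
  by_cases hd : Disjoint (U x β) (U y γ)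
  · exact Or.inr (Or.inr hd)
  · obtain ⟨z, hz1, hz2⟩ := Set.not_disjoint_iff.1 hd
    rw [U_eq hz1, U_eq hz2]
    rcases le_total β γ with h | h
    · exact Or.inr (Or.inl (U_anti z h))
    · exact Or.inl (U_anti z h)

include hρ in
theorem exists_between (x : Pt ρ) {ξ : W2} (h : ξ < x.len) : ∃ β, ξ < β ∧ β < x.len := by
  by_contra hcon
  push Not at hcon
  apply x.top
  have h1 : D x.len x.f (ρ x.len) ⊆ D ξ x.f (ρ x.len) ∪ {ξ} := by
    rintro η ⟨hη, hne⟩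
    rcases lt_trichotomy η ξ with h2 | h2 | h2
    · exact Or.inl ⟨h2, hne⟩
    · exact Or.inr h2
    · exact absurd hη (not_lt.2 (hcon η h2))
  refine Set.Finite.subset (Set.Finite.union ?_ (Set.finite_singleton _)) h1
  refine Set.Finite.subset (Set.Finite.union (x.below ξ h) ?_) (D_tri ξ x.f (ρ ξ) (ρ x.len))
  rw [D_symm]
  exact hρ x.len ξ h.le

theorem exists_mem_BB (x : Pt ρ) : ∃ β, β < x.len := by
  by_contra hcon
  push Not at hcon
  apply x.top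
  have : D x.len x.f (ρ x.len) = ∅ := by
    ext ξ
    simp only [D, Set.mem_ofPred_eq, mem_empty_iff_false, iff_false]
    rintro ⟨h1, -⟩
    exact absurd h1 (not_lt.2 (hcon ξ))
  rw [this]
  exact Set.finite_empty

theorem isBasis : IsTopologicalBasis (BB ρ) where
  exists_subset_inter := by
    intro V hV W hW z hz
    rcases BB_comp V hV W hW with h | h | h
    · exact ⟨V, hV, hz.1, fun y hy => ⟨hy, h hy⟩⟩
    · exact ⟨W, hW, hz.2, fun y hy => ⟨h hy, hy⟩⟩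
    · exact absurd hz.2 (disjoint_left.1 h hz.1)
  sUnion_eq := by
    rw [Set.eq_univ_iff_forall]
    intro x
    obtain ⟨β, hβ⟩ := exists_mem_BB x
    exact ⟨U x β, ⟨x, β, hβ, rfl⟩, mem_U_self hβ⟩
  eq_generateFrom := rfl

theorem BB_ne : ∅ ∉ BB ρ := by
  rintro ⟨x, β, hβ, h⟩
  have := mem_U_self hβ
  rw [← h] at this
  exact this

theorem BB_wf : ∀ V ∈ BB ρ, ∀ S ⊆ BB ρ, S.Nonempty → (∀ W ∈ S, V ⊆ W) →
    ∃ W ∈ S, ∀ W' ∈ S, W' ⊆ W := by
  rintro _ ⟨x, β, hβ, rfl⟩ S hS ⟨W0, hW0⟩ hsub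
  have h1 : ∀ W ∈ S, ∃ γ, γ < x.len ∧ W = U x γ := by
    intro W hW
    obtain ⟨y, γ, hγ, rfl⟩ := hS hW
    have hx : x ∈ U y γ := hsub _ hW (mem_U_self hβ)
    exact ⟨γ, hx.1, U_eq hx⟩
  obtain ⟨γ0, hγ0, hW0e⟩ := h1 W0 hW0
  let Γ : Set W2 := {γ | U x γ ∈ S}
  have hΓ : Γ.Nonempty := ⟨γ0, by show U x γ0 ∈ S; rw [← hW0e]; exact hW0⟩
  obtain ⟨γ, hγ, hmin⟩ := WellFounded.has_min (wellFounded_lt (α := W2)) Γ hΓ
  refine ⟨U x γ, hγ, fun W' hW' => ?_⟩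
  obtain ⟨γ', hγ', rfl⟩ := h1 W' hW'
  exact U_anti x (not_lt.1 (hmin γ' hW'))

theorem open_iff {O : Set (Pt ρ)} (hO : IsOpen O) {x : Pt ρ} (hx : x ∈ O) :
    ∃ β, β < x.len ∧ U x β ⊆ O := by
  obtain ⟨V, ⟨y, β, hβ, rfl⟩, hxV, hVO⟩ := isBasis.exists_subset_of_mem_open hx hO
  refine ⟨β, hxV.1, ?_⟩
  rw [← U_eq hxV]
  exact hVO

theorem isOpen_U {x : Pt ρ} {β : W2} (h : β < x.len) : IsOpen (U x β) :=
  isBasis.isOpen ⟨x, β, h, rfl⟩

include hρ in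
theorem t0 : T0Space (Pt ρ) := by
  refine ⟨fun x y hxy => ?_⟩
  by_contra hne
  -- a place where they differ
  have key : ∀ x y : Pt ρ, Inseparable x y → x.len ≤ y.len → x = y := by
    intro x y hxy hle
    have h1 : ∀ β < x.len, y ∈ U x β := by
      intro β hβ
      exact (hxy.mem_open_iff (isOpen_U hβ)).1 (mem_U_self hβ)
    have h2 : ∀ ξ < x.len, y.f ξ = x.f ξ := by
      intro ξ hξ
      obtain ⟨β, hβ1, hβ2⟩ := exists_between hρ x hξ
      exact (h1 β hβ2).2 ξ hβ1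
    have h3 : x.len = y.len := by
      by_contra hne
      have hlt : x.len < y.len := lt_of_le_of_ne hle hne
      apply x.top
      rw [D_congr (ρ x.len) (fun ξ hξ => (h2 ξ hξ).symm)]
      exact y.below _ hlt
    cases x with
    | mk lx fx ox bx tx =>
      cases y with
      | mk ly fy oy by' ty =>
        simp only at h3 h2
        subst h3
        have : fx = fy := by
          funext ξ
          rcases lt_or_ge ξ lx with h | h
          · exact (h2 ξ h).symm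
          · rw [ox ξ h, oy ξ h]
        subst this
        rfl
  rcases le_total x.len y.len with h | h
  · exact hne (key x y hxy h)
  · exact hne (key y x hxy.symm h).symm

theorem normal : NormalSpace (Pt ρ) := by
  refine ⟨fun s t hs ht hst => ?_⟩
  refine ⟨⋃₀ {V | V ∈ BB ρ ∧ (V ∩ s).Nonempty ∧ Disjoint V t},
    ⋃₀ {V | V ∈ BB ρ ∧ (V ∩ t).Nonempty ∧ Disjoint V s},
    isOpen_sUnion fun V hV => isBasis.isOpen hV.1, isOpen_sUnion fun V hV => isBasis.isOpen hV.1,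
    ?_, ?_, ?_⟩
  · intro x hx
    have hxt : x ∈ tᶜ := disjoint_left.1 hst hx
    obtain ⟨β, hβ, h⟩ := open_iff ht.isOpen_compl hxt
    exact ⟨U x β, ⟨⟨x, β, hβ, rfl⟩, ⟨x, mem_U_self hβ, hx⟩,
      disjoint_left.2 fun y hy hyt => h hy hyt⟩, mem_U_self hβ⟩
  · intro x hx
    have hxt : x ∈ sᶜ := disjoint_right.1 hst hx
    obtain ⟨β, hβ, h⟩ := open_iff hs.isOpen_compl hxt
    exact ⟨U x β, ⟨⟨x, β, hβ, rfl⟩, ⟨x, mem_U_self hβ, hx⟩,
      disjoint_left.2 fun y hy hyt => h hy hyt⟩, mem_U_self hβ⟩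
  · rw [disjoint_left]
    rintro z ⟨V, ⟨hV, ⟨a, haV, has⟩, hVt⟩, hzV⟩ ⟨W, ⟨hW, ⟨b, hbW, hbt⟩, hWs⟩, hzW⟩
    rcases BB_comp V hV W hW with h | h | h
    · exact disjoint_left.1 hWs (h haV) has
    · exact disjoint_left.1 hVt (h hbW) hbt
    · exact disjoint_left.1 h hzV hzW

/-- the chain condition -/
def CC (ρ : W2 → W2 → Bool) : Prop :=
  ∀ (J : Type) (lv : J → W2) (g : J → W2 → Bool), (∀ j, (D (lv j) (g j) (ρ (lv j))).Finite) →
    (∀ i j, i ≠ j → lv i ≤ lv j → ∃ ξ < lv i, g i ξ ≠ g j ξ) → #J ≤ ℵ_ 1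

include hρ in
theorem open_fsigma (hcc : CC ρ) {O : Set (Pt ρ)} (hO : IsOpen O) :
    ∃ E : ℕ → Set (Pt ρ), (∀ n, IsClosed (E n)) ∧ O = ⋃ n, E n := by
  classical
  -- the bound
  have hmin : ∀ x : O, ∃ γ, (γ < x.1.len ∧ U x.1 γ ⊆ O) ∧ ∀ γ', γ' < x.1.len → U x.1 γ' ⊆ O →
      γ ≤ γ' := by
    intro x
    obtain ⟨γ, hγ, hm⟩ := WellFounded.has_min (wellFounded_lt (α := W2))
      {γ | γ < x.1.len ∧ U x.1 γ ⊆ O} (open_iff hO x.2)
    exact ⟨γ, hγ, fun γ' h1 h2 => not_lt.1 (hm γ' ⟨h1, h2⟩)⟩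
  choose μ hμ hμmin using hmin
  -- equivalence relation: same minimal node
  let J : Type := range (fun x : O => U x.1 (μ x))
  have hrep : ∀ j : J, ∃ x : O, U x.1 (μ x) = j.1 := fun j => j.2
  choose rep hrep using hrep
  have hJ : #J ≤ ℵ_ 1 := by
    refine hcc J (fun j => μ (rep j)) (fun j => (rep j).1.f) ?_ ?_
    · intro j
      exact (rep j).1.below _ (hμ (rep j)).1
    · intro i j hij hle
      by_contra hcon
      push Not at hcon
      apply hij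
      have h1 : (rep j).1 ∈ U (rep i).1 (μ (rep i)) :=
        ⟨lt_of_le_of_lt hle (hμ (rep j)).1, fun ξ hξ => (hcon ξ hξ).symm⟩
      have h2 : U (rep j).1 (μ (rep i)) ⊆ O := by
        rw [← U_eq h1]
        exact (hμ (rep i)).2
      have h3 : μ (rep j) ≤ μ (rep i) := hμmin (rep j) _ h1.1 h2
      have h4 : μ (rep i) = μ (rep j) := le_antisymm hle h3
      apply Subtype.ext
      rw [← hrep i, ← hrep j, U_eq h1, h4]
  have hJ2 : #(range (fun j : J => μ (rep j))) ≤ ℵ_ 1 := mk_range_le.trans hJ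
  obtain ⟨β, hβ⟩ := exists_gt_of_mk_le hJ2
  have hbound : ∀ x ∈ O, ∃ γ, γ < β ∧ γ < x.len ∧ U x γ ⊆ O := by
    intro x hx
    let j : J := ⟨U x (μ ⟨x, hx⟩), ⟨⟨x, hx⟩, rfl⟩⟩
    have h1 : x ∈ U (rep j).1 (μ (rep j)) := by
      rw [hrep j]
      exact mem_U_self (hμ ⟨x, hx⟩).1
    refine ⟨μ (rep j), hβ _ ⟨j, rfl⟩, h1.1, ?_⟩
    rw [← U_eq h1]
    exact (hμ (rep j)).2
  -- finiteness
  have hfin : ∀ (x : Pt ρ) (γ : W2), γ < x.len → (D (min γ β) x.f (ρ β)).Finite := by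
    intro x γ hγ
    refine Set.Finite.subset (Set.Finite.union (x.below (min γ β)
      (lt_of_le_of_lt (min_le_left _ _) hγ)) ?_) (D_tri _ x.f (ρ (min γ β)) (ρ β))
    rw [D_symm]
    exact hρ β (min γ β) (min_le_right _ _)
  let E : ℕ → Set (Pt ρ) := fun n => {x | ∃ γ, γ < x.len ∧ U x γ ⊆ O ∧
    (D (min γ β) x.f (ρ β)).ncard ≤ n}
  refine ⟨E, ?_, ?_⟩
  · intro n
    rw [← isOpen_compl_iff, isOpen_iff_forall_mem_open]
    intro y hy
    rcases lt_or_ge β y.len with hβy | hβy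
    · refine ⟨U y β, ?_, isOpen_U hβy, mem_U_self hβy⟩
      rintro x ⟨hx1, hx2⟩ ⟨γ, hγ, hγO, hγn⟩
      obtain ⟨γ', hγ'β, hγ', hγ'O⟩ := hbound x (hγO (mem_U_self hγ))
      -- a witness below β
      have hw : ∃ γ'', γ'' < β ∧ γ'' < x.len ∧ U x γ'' ⊆ O ∧
          (D (min γ'' β) x.f (ρ β)).ncard ≤ n := by
        rcases le_total γ' γ with h | h
        · refine ⟨γ', hγ'β, hγ', hγ'O, le_trans ?_ hγn⟩
          exact Set.ncard_le_ncard (D_mono (min_le_min h le_rfl) _ _) (hfin x γ hγ)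
        · exact ⟨γ, lt_of_le_of_lt h hγ'β, hγ, hγO, hγn⟩
      obtain ⟨δ, hδβ, hδ, hδO, hδn⟩ := hw
      apply hy
      have hyx : y ∈ U x δ := ⟨hδβ.trans hβy, fun ξ hξ => (hx2 ξ (hξ.trans hδβ)).symm⟩
      refine ⟨δ, hδβ.trans hβy, ?_, ?_⟩
      · rw [← U_eq hyx]; exact hδO
      · rw [D_congr (s := y.f) (s' := x.f) (ρ β) (fun ξ hξ =>
          (hx2 ξ ((lt_of_lt_of_le hξ (min_le_left _ _)).trans hδβ)).symm)]
        exact hδn
    · -- y.len ≤ β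
      have hinf : ¬ (D y.len y.f (ρ β)).Finite := by
        intro h
        apply y.top
        refine Set.Finite.subset (Set.Finite.union h ?_) (D_tri _ y.f (ρ β) (ρ y.len))
        exact hρ β y.len hβy
      obtain ⟨F, hF, hFn⟩ := (show (D y.len y.f (ρ β)).Infinite from hinf).exists_subset_card_eq
        (n + 1)
      have hFne : F.Nonempty := by
        rw [← Finset.card_pos, hFn]; omega
      obtain ⟨γ, hγ1, hγ2⟩ := exists_between hρ y (hF (Finset.max'_mem F hFne)).1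
      have hFγ : (F : Set W2) ⊆ D γ y.f (ρ β) := by
        intro ξ hξ
        exact ⟨lt_of_le_of_lt (Finset.le_max' F ξ hξ) hγ1, (hF hξ).2⟩
      refine ⟨U y γ, ?_, isOpen_U hγ2, mem_U_self hγ2⟩
      rintro x ⟨hx1, hx2⟩ ⟨γ', hγ', hγ'O, hγ'n⟩
      have hlt : γ' < γ := by
        by_contra hcon
        push Not at hcon
        have h1 : D γ x.f (ρ β) ⊆ D (min γ' β) x.f (ρ β) :=
          D_mono (le_min hcon (hγ2.le.trans hβy)) _ _
        have h2 : (F : Set W2) ⊆ D (min γ' β) x.f (ρ β) := by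
          refine subset_trans ?_ h1
          rw [D_congr (s := x.f) (s' := y.f) (ρ β) hx2]
          exact hFγ
        have h3 := Set.ncard_le_ncard h2 (hfin x γ' hγ')
        rw [Set.ncard_coe_finset, hFn] at h3
        omega
      apply hy
      have hyx : y ∈ U x γ' := ⟨hlt.trans hγ2, fun ξ hξ => (hx2 ξ (hξ.trans hlt)).symm⟩
      refine ⟨γ', hlt.trans hγ2, ?_, ?_⟩
      · rw [← U_eq hyx]; exact hγ'O
      · rw [D_congr (s := y.f) (s' := x.f) (ρ β) (fun ξ hξ =>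
          (hx2 ξ ((lt_of_lt_of_le hξ (min_le_left _ _)).trans hlt)).symm)]
        exact hγ'n
  · apply Subset.antisymm
    · intro x hx
      obtain ⟨γ, -, hγ, hγO⟩ := hbound x hx
      exact mem_iUnion.2 ⟨_, γ, hγ, hγO, le_rfl⟩
    · intro x hx
      obtain ⟨n, γ, hγ, hγO, -⟩ := mem_iUnion.1 hx
      exact hγO (mem_U_self hγ)

include hρ in
theorem t6 (hcc : CC ρ) : T6Space (Pt ρ) := by
  have := t0 hρ
  have : NormalSpace (Pt ρ) := normal
  have : PerfectlyNormalSpace (Pt ρ) := ⟨fun h hh => by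
    obtain ⟨E, hE, hu⟩ := open_fsigma hρ hcc hh.isOpen_compl
    have h1 : h = ⋂ n, (E n)ᶜ := by
      rw [← compl_iUnion, ← hu, compl_compl]
    rw [h1]
    exact IsGδ.iInter_of_isOpen fun n => (hE n).isOpen_compl⟩
  exact {}

include hρ in
theorem exists_pt (β : W2) : ∃ y : Pt ρ, β < y.len := by
  classical
  choose nx hnx using exists_gt_W2
  let b : ℕ → W2 := fun n => Nat.rec β (fun _ c => nx c) n
  have hb0 : b 0 = β := rfl
  have hbs : ∀ n, b n < b (n + 1) := fun n => hnx _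
  have hbm : StrictMono b := strictMono_nat_of_lt_succ hbs
  obtain ⟨δ, hδ, hmin⟩ := WellFounded.has_min (wellFounded_lt (α := W2))
    {δ | ∀ n, b n < δ} (exists_gt_seq b)
  have hlt : ∀ γ < δ, ∃ n, γ ≤ b n := by
    intro γ hγ
    by_contra hcon
    push Not at hcon
    exact hmin γ hcon hγ
  let f : W2 → Bool := fun ξ => if ξ < δ then (if ξ ∈ range b then !(ρ δ ξ) else ρ δ ξ) else false
  have hf1 : ∀ ξ < δ, ξ ∉ range b → f ξ = ρ δ ξ := by
    intro ξ h1 h2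
    simp only [f, if_pos h1, if_neg h2]
  have hf2 : ∀ n, f (b n) ≠ ρ δ (b n) := by
    intro n
    have : f (b n) = !(ρ δ (b n)) := by
      simp only [f, if_pos (hδ n), if_pos (mem_range_self n)]
    rw [this]
    cases ρ δ (b n) <;> simp
  refine ⟨⟨δ, f, ?_, ?_, ?_⟩, ?_⟩
  · intro ξ hξ
    simp only [f, if_neg (not_lt.2 hξ)]
  · intro γ hγ
    refine Set.Finite.subset (Set.Finite.union ?_ (hρ δ γ hγ.le)) (D_tri γ f (ρ δ) (ρ γ))
    obtain ⟨n, hn⟩ := hlt γ hγ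
    refine Set.Finite.subset ((Set.finite_Iio n).image b) ?_
    rintro ξ ⟨hξ, hne⟩
    by_cases h : ξ ∈ range b
    · obtain ⟨m, rfl⟩ := h
      exact ⟨m, hbm.lt_iff_lt.1 (lt_of_lt_of_le hξ hn), rfl⟩
    · exact absurd (hf1 ξ (hξ.trans hγ) h) hne
  · intro hfin
    have h1 : range b ⊆ D δ f (ρ δ) := by
      rintro _ ⟨n, rfl⟩
      exact ⟨hδ n, hf2 n⟩
    exact (Set.infinite_range_of_injective hbm.injective) (hfin.subset h1)
  · exact hδ 0

/-- discrete subspaces have size at most `ℵ₁` -/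
theorem mk_discrete (hcc : CC ρ) (A : Set (Pt ρ)) (hA : DiscreteTopology A) : #A ≤ ℵ_ 1 := by
  have h1 : ∀ x : A, ∃ γ, γ < x.1.len ∧ ∀ y ∈ A, y ∈ U x.1 γ → y = x.1 := by
    intro x
    have h2 : IsOpen ({x} : Set A) := isOpen_discrete _
    rw [isOpen_induced_iff] at h2
    obtain ⟨O, hO, hOx⟩ := h2
    have hxO : x.1 ∈ O := by
      have : x ∈ Subtype.val ⁻¹' O := by rw [hOx]; rfl
      exact this
    obtain ⟨γ, hγ, hγO⟩ := open_iff hO hxO
    refine ⟨γ, hγ, fun y hyA hy => ?_⟩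
    have : (⟨y, hyA⟩ : A) ∈ Subtype.val ⁻¹' O := hγO hy
    rw [hOx] at this
    exact congrArg Subtype.val this
  choose γ hγ hγ2 using h1
  refine hcc A γ (fun x => x.1.f) (fun x => x.1.below _ (hγ x)) ?_
  intro x y hxy hle
  by_contra hcon
  push Not at hcon
  exact hxy (Subtype.ext (hγ2 x y.1 y.2 ⟨lt_of_le_of_lt hle (hγ y),
    fun ξ hξ => (hcon ξ hξ).symm⟩).symm)

include hρ in
theorem no_base (hcc : CC ρ) :
    ¬ ∃ N : Set (Set (Pt ρ)), IsTopologicalBasis N ∧ ∀ x : Pt ρ, {V ∈ N | x ∈ V}.Countable := by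
  rintro ⟨N, hN, hNc⟩
  obtain ⟨𝓓, h𝓓, hdisc, hdense⟩ := to_dense (BB ρ) isBasis BB_ne BB_comp BB_wf N hN hNc
  have h1 : #(⋃₀ 𝓓) ≤ ℵ_ 1 := by
    rw [sUnion_eq_iUnion]
    refine (Cardinal.mk_iUnion_le_sum_mk).trans ?_
    refine (Cardinal.sum_le_mk_mul_iSup _).trans ?_
    refine (mul_le_mul' h𝓓 (ciSup_le' fun i : 𝓓 => mk_discrete hcc i.1 (hdisc i.1 i.2))).trans ?_
    exact (Cardinal.mul_eq_self (Cardinal.aleph0_le_aleph 1)).le
  obtain ⟨β, hβ⟩ := exists_gt_of_mk_le (s := (fun x : Pt ρ => x.len) '' (⋃₀ 𝓓))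
    (mk_image_le.trans h1)
  obtain ⟨y, hy⟩ := exists_pt hρ β
  obtain ⟨x, hx, hxD⟩ := hdense.inter_open_nonempty (U y β) (isOpen_U hy) ⟨y, mem_U_self hy⟩
  exact absurd (hβ x.len ⟨x, hxD, rfl⟩) (not_lt.2 hx.1.le)

end

end Pool.Agent.Lib.MP_0d2ecd_gt
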