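import Mathlib

set_option autoImplicit false

open Set TopologicalSpace

universe u

namespace Pool.Agent.Lib.MP_0d2ecd_gt

section
variable {X : Type u} (B : Set (Set X))

open Classical in
/-- the piece containing `p` of a partition of `C` -/
noncomputable def pc (C : Set X) (p : X) : Set X :=
  if h : ∃ b ∈ B, b ⊂ C then
    (if p ∈ Classical.choose h then Classical.choose h else
      ⋃₀ {b | b ∈ B ∧ p ∈ b ∧ Disjoint b (Classical.choose h) ∧ b ⊆ C})
  else C

/-- `C` is comparable with or disjoint from all members of `B` -/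
def Sat (C : Set X) : Prop := ∀ b ∈ B, b ⊆ C ∨ C ⊆ b ∨ Disjoint b C

theorem pc_sub (C : Set X) (p : X) : pc B C p ⊆ C := by
  unfold pc
  split_ifs with h h'
  · exact (Classical.choose_spec h).2.1
  · exact sUnion_subset fun b hb => hb.2.2.2
  · exact Subset.rfl

theorem pc_congr (hr : ∀ U ∈ B, ∀ V ∈ B, ∀ p, p ∈ U → p ∈ V → U ⊆ V ∨ V ⊆ U)
    (C : Set X) {p q : X} (hq : q ∈ pc B C p) : pc B C q = pc B C p := by
  unfold pc at hq ⊢
  by_cases h : ∃ b ∈ B, b ⊂ C
  · rw [dif_pos h] at hq ⊢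
    rw [dif_pos h]
    by_cases h1 : p ∈ Classical.choose h
    · rw [if_pos h1] at hq ⊢
      rw [if_pos hq]
    · rw [if_neg h1] at hq ⊢
      obtain ⟨b, ⟨hbB, hpb, hbd, hbC⟩, hqb⟩ := hq
      have h2 : q ∉ Classical.choose h := disjoint_left.1 hbd hqb
      rw [if_neg h2]
      apply Subset.antisymm
      · rintro x ⟨b', ⟨hb'B, hqb', hb'd, hb'C⟩, hxb'⟩
        rcases hr b hbB b' hb'B q hqb hqb' with h' | h'
        · exact ⟨b', ⟨hb'B, h' hpb, hb'd, hb'C⟩, hxb'⟩
        · exact ⟨b, ⟨hbB, hpb, hbd, hbC⟩, h' hxb'⟩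
      · rintro x ⟨b', ⟨hb'B, hpb', hb'd, hb'C⟩, hxb'⟩
        rcases hr b hbB b' hb'B p hpb hpb' with h' | h'
        · exact ⟨b', ⟨hb'B, h' hqb, hb'd, hb'C⟩, hxb'⟩
        · exact ⟨b, ⟨hbB, hqb, hbd, hbC⟩, h' hxb'⟩
  · rw [dif_neg h, dif_neg h]

theorem pc_sat (h0 : ∅ ∉ B) (hr : ∀ U ∈ B, ∀ V ∈ B, ∀ p, p ∈ U → p ∈ V → U ⊆ V ∨ V ⊆ U)
    {C : Set X} (hC : Sat B C) (p : X) : Sat B (pc B C p) := by
  have hne : ∀ t ∈ B, t.Nonempty := by
    intro t ht
    rw [nonempty_iff_ne_empty]
    rintro rfl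
    exact h0 ht
  unfold pc
  split_ifs with h h'
  · intro b hb
    by_cases hd : Disjoint b (Classical.choose h)
    · exact Or.inr (Or.inr hd)
    · obtain ⟨x, hx, hx'⟩ := Set.not_disjoint_iff.1 hd
      rcases hr b hb _ (Classical.choose_spec h).1 x hx hx' with h1 | h1
      · exact Or.inl h1
      · exact Or.inr (Or.inl h1)
  · intro c hc
    by_cases hd : Disjoint c (⋃₀ {b | b ∈ B ∧ p ∈ b ∧ Disjoint b (Classical.choose h) ∧ b ⊆ C})
    · exact Or.inr (Or.inr hd)
    · obtain ⟨x, hxc, b, ⟨hbB, hpb, hbd, hbC⟩, hxb⟩ := Set.not_disjoint_iff.1 hd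
      rcases hr c hc b hbB x hxc hxb with h1 | h1
      · exact Or.inl (h1.trans (subset_sUnion_of_mem ⟨hbB, hpb, hbd, hbC⟩))
      · -- b ⊆ c
        have hpc : p ∈ c := h1 hpb
        by_cases hd' : Disjoint c (Classical.choose h)
        · left
          refine subset_sUnion_of_mem ⟨hc, hpc, hd', ?_⟩
          rcases hC c hc with h2 | h2 | h2
          · exact h2
          · obtain ⟨y, hy⟩ := hne _ (Classical.choose_spec h).1
            exact absurd hy (disjoint_left.1 hd' (h2 ((Classical.choose_spec h).2.1 hy)))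
          · exact absurd (hbC hxb) (disjoint_left.1 h2 hxc)
        · right; left
          apply sUnion_subset
          rintro b' ⟨hb'B, hpb', hb'd, hb'C⟩
          rcases hr c hc b' hb'B p hpc hpb' with h2 | h2
          · obtain ⟨y, hy, hy'⟩ := Set.not_disjoint_iff.1 hd'
            exact absurd hy' (disjoint_left.1 hb'd (h2 hy))
          · exact h2
  · exact hC

theorem pc_ne (h0 : ∅ ∉ B) {C : Set X} (h : ∃ b ∈ B, b ⊂ C) (p : X) : pc B C p ≠ C := by
  have hne : ∀ t ∈ B, t.Nonempty := by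
    intro t ht
    rw [nonempty_iff_ne_empty]
    rintro rfl
    exact h0 ht
  unfold pc
  rw [dif_pos h]
  split_ifs with h'
  · exact (Classical.choose_spec h).2.ne
  · intro heq
    obtain ⟨y, hy⟩ := hne _ (Classical.choose_spec h).1
    have hyC : y ∈ C := (Classical.choose_spec h).2.1 hy
    rw [← heq] at hyC
    obtain ⟨b, hb, hyb⟩ := hyC
    exact disjoint_left.1 hb.2.2.1 hyb hy

variable [TopologicalSpace X]

theorem pc_open (hB : IsTopologicalBasis B) {C : Set X} (hC : IsOpen C) (p : X) :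
    IsOpen (pc B C p) := by
  unfold pc
  split_ifs with h h'
  · exact hB.isOpen (Classical.choose_spec h).1
  · exact isOpen_sUnion fun b hb => hB.isOpen hb.1
  · exact hC

variable [T1Space X]

theorem closed_of_mem' (hB : IsTopologicalBasis B) (h0 : ∅ ∉ B)
    (hr : ∀ U ∈ B, ∀ V ∈ B, ∀ p, p ∈ U → p ∈ V → U ⊆ V ∨ V ⊆ U) {t : Set X} (ht : t ∈ B) :
    IsClosed t := by
  rw [← isOpen_compl_iff, isOpen_iff_forall_mem_open]
  intro x hx
  have hne : t.Nonempty := by
    rw [nonempty_iff_ne_empty]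
    rintro rfl
    exact h0 ht
  obtain ⟨y, hy⟩ := hne
  have hxy : x ≠ y := by
    rintro rfl; exact hx hy
  obtain ⟨s, hs, hxs, hsy⟩ := hB.exists_subset_of_mem_open (show x ∈ ({y} : Set X)ᶜ from hxy)
    isClosed_singleton.isOpen_compl
  refine ⟨s, ?_, hB.isOpen hs, hxs⟩
  intro z hzs hzt
  rcases hr s hs t ht z hzs hzt with h | h
  · exact hx (h hxs)
  · exact hsy (h hy) rfl

theorem mem_pc (hB : IsTopologicalBasis B) (h0 : ∅ ∉ B)
    (hr : ∀ U ∈ B, ∀ V ∈ B, ∀ p, p ∈ U → p ∈ V → U ⊆ V ∨ V ⊆ U) {C : Set X} {p : X}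
    (hp : p ∈ C) (hC : IsOpen C ∨ C = {p}) : p ∈ pc B C p := by
  unfold pc
  split_ifs with h h'
  · exact h'
  · have hCo : IsOpen C := by
      rcases hC with hC | hC
      · exact hC
      · exfalso
        obtain ⟨b, hb, hbC⟩ := h
        rw [hC] at hbC
        have h1 := ssubset_singleton_iff.1 hbC
        rw [h1] at hb
        exact h0 hb
    have hcl := closed_of_mem' B hB h0 hr (Classical.choose_spec h).1
    obtain ⟨b, hbB, hpb, hbs⟩ := hB.exists_subset_of_mem_open
      (show p ∈ C ∩ (Classical.choose h)ᶜ from ⟨hp, h'⟩) (hCo.inter hcl.isOpen_compl)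
    exact ⟨b, ⟨hbB, hpb, disjoint_left.2 fun z hz => (hbs hz).2, hbs.trans inter_subset_left⟩, hpb⟩
  · exact hp

omit [TopologicalSpace X] [T1Space X] in
/-- the decreasing sequence of pieces containing `p` -/
noncomputable def cls (p : X) : Ordinal.{u} → Set X :=
  WellFounded.fix (wellFounded_lt (α := Ordinal.{u}))
    (fun α ih => ⋂ (β : Ordinal.{u}) (h : β < α), pc B (ih β h) p)

omit [TopologicalSpace X] [T1Space X] in
theorem cls_eq (p : X) (α : Ordinal.{u}) :
    cls B p α = ⋂ (β : Ordinal.{u}) (_ : β < α), pc B (cls B p β) p :=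
  WellFounded.fix_eq (wellFounded_lt (α := Ordinal.{u})) _ α

omit [TopologicalSpace X] [T1Space X] in
theorem cls_sub (p : X) {α β : Ordinal.{u}} (h : β < α) : cls B p α ⊆ pc B (cls B p β) p := by
  rw [cls_eq B p α]
  exact iInter₂_subset β h

omit [TopologicalSpace X] [T1Space X] in
theorem cls_anti (p : X) {α β : Ordinal.{u}} (h : β ≤ α) : cls B p α ⊆ cls B p β := by
  rw [cls_eq B p β]
  exact subset_iInter₂ fun γ hγ => cls_sub B p (lt_of_lt_of_le hγ h)

omit [TopologicalSpace X] [T1Space X] in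
theorem cls_succ (p : X) (β : Ordinal.{u}) :
    cls B p (Order.succ β) = pc B (cls B p β) p := by
  apply Subset.antisymm (cls_sub B p (Order.lt_succ β))
  rw [cls_eq B p (Order.succ β)]
  refine subset_iInter₂ fun γ hγ => ?_
  rcases lt_or_eq_of_le (Order.lt_succ_iff.1 hγ) with h | h
  · exact (pc_sub B _ p).trans (cls_sub B p h)
  · rw [h]

/-- the induction -/
theorem cls_props (hB : IsTopologicalBasis B) (h0 : ∅ ∉ B)
    (hr : ∀ U ∈ B, ∀ V ∈ B, ∀ p, p ∈ U → p ∈ V → U ⊆ V ∨ V ⊆ U) (α : Ordinal.{u}) :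
    ∀ p, p ∈ cls B p α ∧ Sat B (cls B p α) ∧ (∀ q ∈ cls B p α, cls B q α = cls B p α) ∧
      (IsOpen (cls B p α) ∨ cls B p α = {p}) := by
  induction α using WellFoundedLT.induction with
  | ind α ih =>
  have h1 : ∀ p, p ∈ cls B p α := by
    intro p
    rw [cls_eq]
    refine mem_iInter₂.2 fun β hβ => ?_
    obtain ⟨g1, g2, g3, g4⟩ := ih β hβ p
    exact mem_pc B hB h0 hr g1 g4
  have h2 : ∀ p, Sat B (cls B p α) := by
    intro p b hb
    rw [cls_eq]
    by_cases hd : ∃ β, ∃ _ : β < α, Disjoint b (pc B (cls B p β) p)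
    · obtain ⟨β, hβ, hd⟩ := hd
      right; right
      exact hd.mono_right (iInter₂_subset β hβ)
    · by_cases hs : ∃ β, ∃ _ : β < α, pc B (cls B p β) p ⊆ b
      · obtain ⟨β, hβ, hs⟩ := hs
        right; left
        exact (iInter₂_subset β hβ).trans hs
      · left
        push Not at hd hs
        refine subset_iInter₂ fun β hβ => ?_
        rcases pc_sat B h0 hr (ih β hβ p).2.1 p b hb with h | h | h
        · exact h
        · exact absurd h (hs β hβ)
        · exact absurd h (hd β hβ)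
  have h3 : ∀ p, ∀ q ∈ cls B p α, cls B q α = cls B p α := by
    intro p q hq
    rw [cls_eq B q α, cls_eq B p α]
    refine iInter₂_congr fun β hβ => ?_
    have hq' : q ∈ pc B (cls B p β) p := cls_sub B p hβ hq
    have hq'' : q ∈ cls B p β := pc_sub B _ _ hq'
    rw [(ih β hβ p).2.2.1 q hq'']
    exact pc_congr B hr _ hq'
  refine fun p => ⟨h1 p, h2 p, h3 p, ?_⟩
  by_cases hsing : cls B p α = {p}
  · exact Or.inr hsing
  · left
    have key : ∀ p', ∀ q ∈ cls B p' α, q ≠ p' → ∃ b ∈ B, q ∈ b ∧ b ⊆ cls B p' α := by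
      intro p' q hq hqp
      obtain ⟨b, hbB, hqb, hbp⟩ := hB.exists_subset_of_mem_open
        (show q ∈ ({p'} : Set X)ᶜ from hqp) isClosed_singleton.isOpen_compl
      refine ⟨b, hbB, hqb, ?_⟩
      rcases h2 p' b hbB with h | h | h
      · exact h
      · exact absurd rfl (hbp (h (h1 p')))
      · exact absurd hq (disjoint_left.1 h hqb)
    have hq : ∃ q ∈ cls B p α, q ≠ p := by
      by_contra hcon
      push Not at hcon
      exact hsing (Subset.antisymm (fun x hx => hcon x hx) (singleton_subset_iff.2 (h1 p)))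
    obtain ⟨q, hq, hqp⟩ := hq
    rw [isOpen_iff_forall_mem_open]
    intro x hx
    by_cases hxp : x = p
    · subst hxp
      have h4 := h3 x q hq
      obtain ⟨b, hbB, hxb, hbs⟩ := key q x (by rw [h4]; exact hx) (Ne.symm hqp)
      exact ⟨b, by rw [← h4]; exact hbs, hB.isOpen hbB, hxb⟩
    · obtain ⟨b, hbB, hxb, hbs⟩ := key p x hx hxp
      exact ⟨b, hbs, hB.isOpen hbB, hxb⟩

/-- every rank one base can be replaced by a tree base -/
theorem exists_treeBase (B : Set (Set X)) (hB : IsTopologicalBasis B)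
    (hr : ∀ p, ∀ U ∈ B, ∀ V ∈ B, p ∈ U → p ∈ V → U ⊆ V ∨ V ⊆ U) :
    ∃ T : Set (Set X), IsTopologicalBasis T ∧ ∅ ∉ T ∧
      (∀ U ∈ T, ∀ V ∈ T, U ⊆ V ∨ V ⊆ U ∨ Disjoint U V) ∧
      (∀ U ∈ T, ∀ S ⊆ T, S.Nonempty → (∀ W ∈ S, U ⊆ W) → ∃ W ∈ S, ∀ W' ∈ S, W' ⊆ W) := by
  classical
  -- remove the empty set
  obtain ⟨B', hB', h0, hr'⟩ : ∃ B' : Set (Set X), IsTopologicalBasis B' ∧ ∅ ∉ B' ∧
      (∀ U ∈ B', ∀ V ∈ B', ∀ p, p ∈ U → p ∈ V → U ⊆ V ∨ V ⊆ U) := by
    refine ⟨B \ {∅}, ?_, fun h => h.2 rfl, fun U hU V hV p hp hp' => hr p U hU.1 V hV.1 hp hp'⟩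
    refine isTopologicalBasis_of_isOpen_of_nhds (fun V hV => hB.isOpen hV.1) ?_
    intro x O hxO hO
    obtain ⟨v, hv, hxv, hvO⟩ := hB.exists_subset_of_mem_open hxO hO
    exact ⟨v, ⟨hv, fun h => by rw [h] at hxv; exact hxv⟩, hxv, hvO⟩
  have hP := cls_props B' hB' h0 hr'
  refine ⟨{t | ∃ p α, t = cls B' p α ∧ IsOpen t}, ?_, ?_, ?_, ?_⟩
  · refine isTopologicalBasis_of_isOpen_of_nhds ?_ ?_
    · rintro t ⟨p, α, -, ht⟩
      exact ht
    · intro p O hpO hO
      obtain ⟨b, hb, hpb, hbO⟩ := hB'.exists_subset_of_mem_open hpO hO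
      by_contra hcon
      have hcon' : ∀ α, IsOpen (cls B' p α) → ¬ cls B' p α ⊆ b := by
        intro α hα hsub
        exact hcon ⟨_, ⟨p, α, rfl, hα⟩, (hP α p).1, hsub.trans hbO⟩
      have hnever : ∀ α, ¬ cls B' p α ⊆ b := by
        intro α
        induction α using WellFoundedLT.induction with
        | ind α ih =>
        intro hsub
        have h1 : ∀ β < α, b ⊆ pc B' (cls B' p β) p := by
          intro β hβ
          have h2 := ih β hβ
          have h3 : IsOpen (cls B' p β) := by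
            rcases (hP β p).2.2.2 with h | h
            · exact h
            · exact absurd (by rw [h]; exact singleton_subset_iff.2 hpb) h2
          rcases pc_sat B' h0 hr' (hP β p).2.1 p b hb with h | h | h
          · exact h
          · refine absurd h ?_
            rw [← cls_succ]
            apply hcon'
            rw [cls_succ]
            exact pc_open B' hB' h3 p
          · have h4 : p ∈ pc B' (cls B' p β) p := mem_pc B' hB' h0 hr' (hP β p).1 (Or.inl h3)
            exact absurd h4 (disjoint_left.1 h hpb)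
        have h2 : cls B' p α = b := by
          apply Subset.antisymm hsub
          rw [cls_eq]
          exact subset_iInter₂ h1
        exact hcon' α (by rw [h2]; exact hB'.isOpen hb) hsub
      have hstrict : ∀ α, b ⊂ cls B' p α := by
        intro α
        rcases (hP α p).2.1 b hb with h | h | h
        · exact ⟨h, hnever α⟩
        · exact absurd h (hnever α)
        · exact absurd (hP α p).1 (disjoint_left.1 h hpb)
      apply not_injective_of_ordinal (fun α => cls B' p α)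
      intro α β hαβ
      have key : ∀ α β : Ordinal.{u}, α < β → cls B' p α = cls B' p β → False := by
        intro α β hlt heq
        have h1 : cls B' p β ⊆ pc B' (cls B' p α) p := cls_sub B' p hlt
        rw [← heq] at h1
        exact pc_ne B' h0 ⟨b, hb, hstrict α⟩ p (Subset.antisymm (pc_sub B' _ _) h1)
      rcases lt_trichotomy α β with h | h | h
      · exact (key α β h hαβ).elim
      · exact h
      · exact (key β α h hαβ.symm).elim
  · rintro ⟨p, α, h, -⟩
    have := (hP α p).1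
    rw [← h] at this
    exact this
  · rintro U ⟨p, α, rfl, -⟩ V ⟨q, β, rfl, -⟩
    by_cases hd : Disjoint (cls B' p α) (cls B' q β)
    · exact Or.inr (Or.inr hd)
    · obtain ⟨r, hr1, hr2⟩ := Set.not_disjoint_iff.1 hd
      rw [← (hP α p).2.2.1 r hr1, ← (hP β q).2.2.1 r hr2]
      rcases le_total α β with h | h
      · exact Or.inr (Or.inl (cls_anti B' r h))
      · exact Or.inl (cls_anti B' r h)
  · rintro U ⟨p, α, rfl, -⟩ S hS ⟨W0, hW0⟩ hSU
    have h1 : ∀ W ∈ S, ∃ β, W = cls B' p β := by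
      intro W hW
      obtain ⟨q, β, rfl, -⟩ := hS hW
      exact ⟨β, ((hP β q).2.2.1 p (hSU _ hW (hP α p).1)).symm⟩
    have hne : ({β | cls B' p β ∈ S} : Set Ordinal.{u}).Nonempty := by
      obtain ⟨β, hβ⟩ := h1 W0 hW0
      exact ⟨β, show cls B' p β ∈ S by rw [← hβ]; exact hW0⟩
    refine ⟨cls B' p (sInf {β | cls B' p β ∈ S}), csInf_mem hne, fun W hW => ?_⟩
    obtain ⟨β, rfl⟩ := h1 W hW
    exact cls_anti B' p (csInf_le' hW)

end

end Pool.Agent.Lib.MP_0d2ecd_gt
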